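import Mathlib

/-!
# Fundamental domains of discrete subgroups
-/

set_option autoImplicit false

open Topology MeasureTheory
open scoped Pointwise

namespace Pool.Agent.MPabcfcd

variable {G : Type*} [Group G] [TopologicalSpace G] [IsTopologicalGroup G]
  [SecondCountableTopology G] [MeasurableSpace G] [BorelSpace G]

/-- Let `V` be an open neighbourhood of `1` such that `γ ∈ V⁻¹ V`, `γ ∈ Γ`, only for `γ = 1`. Countably many
translates `g_n V` cover `G` and no two different points of `g_n V` are equivalent. The set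
`F = ⋃_n (g_n V \ ⋃_{m < n} g_m V Γ)` is a Borel set which meets every coset `g Γ` in exactly one
point. -/
theorem exists_borel_transversal (Γ : Subgroup G) [Countable Γ]
    (h : ∃ V ∈ 𝓝 (1 : G), ∀ γ ∈ Γ, γ ∈ V → γ = 1) :
    ∃ F : Set G, MeasurableSet F ∧ ∀ g : G, ∃! γ : Γ, g * (γ : G) ∈ F := by
  classical
  obtain ⟨V, hV, hV1⟩ := h
  have hc : Continuous fun p : G × G => p.1⁻¹ * p.2 := by fun_prop
  have hc1 : (fun p : G × G => p.1⁻¹ * p.2) ⁻¹' V ∈ 𝓝 ((1 : G), (1 : G)) := by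
    refine hc.continuousAt.preimage_mem_nhds ?_
    simpa using hV
  rw [nhds_prod_eq, Filter.mem_prod_same_iff] at hc1
  obtain ⟨W', hW', hsub'⟩ := hc1
  obtain ⟨W, hWW', hWo, hW1⟩ := mem_nhds_iff.1 hW'
  have key : ∀ a ∈ W, ∀ b ∈ W, a⁻¹ * b ∈ V := fun a ha b hb =>
    hsub' (Set.mk_mem_prod (hWW' ha) (hWW' hb))
  set u : ℕ → G := TopologicalSpace.denseSeq G with hu
  have hcov : ∀ g : G, ∃ n, (u n)⁻¹ * g ∈ W := by
    intro g
    have hop : IsOpen {x : G | x⁻¹ * g ∈ W} := hWo.preimage (by fun_prop)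
    have hne : ({x : G | x⁻¹ * g ∈ W}).Nonempty := ⟨g, by simpa using hW1⟩
    obtain ⟨n, hx⟩ := (TopologicalSpace.denseRange_denseSeq G).exists_mem_open hop hne
    exact ⟨n, hx⟩
  have hop : ∀ (n : ℕ) (γ : Γ), IsOpen {g : G | (u n)⁻¹ * (g * (γ : G)) ∈ W} := fun n γ =>
    hWo.preimage (by fun_prop)
  have hop1 : ∀ n : ℕ, IsOpen {g : G | (u n)⁻¹ * g ∈ W} := fun n => hWo.preimage (by fun_prop)
  refine ⟨⋃ n : ℕ, {g : G | (u n)⁻¹ * g ∈ W} ∩
    (⋂ m : ℕ, ⋂ _ : m < n, ⋂ γ : Γ, {g : G | (u m)⁻¹ * (g * (γ : G)) ∈ W}ᶜ), ?_, ?_⟩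
  · refine MeasurableSet.iUnion fun n => (hop1 n).measurableSet.inter ?_
    exact MeasurableSet.iInter fun m => MeasurableSet.iInter fun _ =>
      MeasurableSet.iInter fun γ => (hop m γ).measurableSet.compl
  · intro g
    have hex : ∃ n, ∃ γ : Γ, (u n)⁻¹ * (g * (γ : G)) ∈ W := by
      obtain ⟨n, hn⟩ := hcov g
      exact ⟨n, 1, by simpa using hn⟩
    obtain ⟨γ, hγ⟩ := Nat.find_spec hex
    have hmem : ∀ (δ : Γ), g * (δ : G) ∈ (⋃ n : ℕ, {g : G | (u n)⁻¹ * g ∈ W} ∩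
        (⋂ m : ℕ, ⋂ _ : m < n, ⋂ γ : Γ, {g : G | (u m)⁻¹ * (g * (γ : G)) ∈ W}ᶜ)) →
        (u (Nat.find hex))⁻¹ * (g * (δ : G)) ∈ W := by
      intro δ hδ
      obtain ⟨n, hn1, hn2⟩ := Set.mem_iUnion.1 hδ
      have h1 : Nat.find hex ≤ n := Nat.find_min' hex ⟨δ, hn1⟩
      rcases h1.lt_or_eq with h2 | h2
      · exfalso
        have h3 := Set.mem_iInter.1 (Set.mem_iInter.1 (Set.mem_iInter.1 hn2 _) h2) (δ⁻¹ * γ)
        apply h3
        show (u (Nat.find hex))⁻¹ * (g * (δ : G) * ((δ⁻¹ * γ : Γ) : G)) ∈ W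
        have h4 : g * (δ : G) * ((δ⁻¹ * γ : Γ) : G) = g * (γ : G) := by
          rw [Subgroup.coe_mul, Subgroup.coe_inv]
          group
        rw [h4]
        exact hγ
      · rw [h2]
        exact hn1
    refine ⟨γ, Set.mem_iUnion.2 ⟨Nat.find hex, hγ, ?_⟩, fun δ hδ => ?_⟩
    · refine Set.mem_iInter.2 fun m => Set.mem_iInter.2 fun hm => Set.mem_iInter.2 fun γ' hW => ?_
      refine Nat.find_min hex hm ⟨γ * γ', ?_⟩
      have h4 : g * ((γ * γ' : Γ) : G) = g * (γ : G) * (γ' : G) := by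
        rw [Subgroup.coe_mul, mul_assoc]
      rw [h4]
      exact hW
    · have h1 := hmem δ hδ
      have h2 := key _ hγ _ h1
      have h3 : ((u (Nat.find hex))⁻¹ * (g * (γ : G)))⁻¹ * ((u (Nat.find hex))⁻¹ * (g * (δ : G))) =
          ((γ⁻¹ * δ : Γ) : G) := by
        rw [Subgroup.coe_mul, Subgroup.coe_inv]
        group
      rw [h3] at h2
      have h4 := hV1 _ (γ⁻¹ * δ).2 h2
      have h5 : γ⁻¹ * δ = 1 := Subtype.ext h4
      exact (inv_mul_eq_one.1 h5).symm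

theorem hasFundamentalDomain (Γ : Subgroup G) [Countable Γ]
    (h : ∃ V ∈ 𝓝 (1 : G), ∀ γ ∈ Γ, γ ∈ V → γ = 1) (μ : Measure G) :
    ∃ F : Set G, MeasurableSet F ∧ IsFundamentalDomain Γ.op F μ ∧
      ∀ g : G, ∃! γ : Γ, g * (γ : G) ∈ F := by
  obtain ⟨F, hF, hF1⟩ := exists_borel_transversal Γ h
  refine ⟨F, hF, IsFundamentalDomain.mk' hF.nullMeasurableSet fun x => ?_, hF1⟩
  obtain ⟨γ, hγ, hγu⟩ := hF1 x
  refine ⟨⟨MulOpposite.op (γ : G), by simp⟩, hγ, fun δ hδ => ?_⟩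
  obtain ⟨δ, hδm⟩ := δ
  have h1 : MulOpposite.unop δ ∈ Γ := Subgroup.mem_op.1 hδm
  have h2 := hγu ⟨MulOpposite.unop δ, h1⟩ hδ
  apply Subtype.ext
  show δ = MulOpposite.op (γ : G)
  rw [← h2]
  rfl

end Pool.Agent.MPabcfcd
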