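import Pool.Agent.Lib.MP_abcfcd_nt.Q.Emb

/-!
# The adelic group is unimodular
-/

set_option autoImplicit false

open Matrix Topology MeasureTheory Measure
open scoped NNReal ENNReal

namespace Pool.Agent.MPabcfcd

/-! ### The integral matrices at a prime -/

private def IE (p : Nat.Primes) (z : E7 ℚ_[p]) : Prop :=
  z.re ∈ (PadicInt.subring p : Subring ℚ_[p]) ∧ z.im ∈ (PadicInt.subring p : Subring ℚ_[p])

private theorem IE.add {p : Nat.Primes} {z w : E7 ℚ_[p]} (hz : IE p z) (hw : IE p w) :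
    IE p (z + w) := by
  refine ⟨?_, ?_⟩
  · rw [QuadraticAlgebra.re_add]
    exact add_mem hz.1 hw.1
  · rw [QuadraticAlgebra.im_add]
    exact add_mem hz.2 hw.2

private theorem IE.mul {p : Nat.Primes} {z w : E7 ℚ_[p]} (hz : IE p z) (hw : IE p w) :
    IE p (z * w) := by
  have h7 : (-7 : ℚ_[p]) ∈ (PadicInt.subring p : Subring ℚ_[p]) := by
    have h := intCast_mem (PadicInt.subring p : Subring ℚ_[p]) (-7)
    push_cast at h
    exact h
  refine ⟨?_, ?_⟩
  · rw [QuadraticAlgebra.re_mul]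
    exact add_mem (mul_mem hz.1 hw.1) (mul_mem (mul_mem h7 hz.2) hw.2)
  · rw [QuadraticAlgebra.im_mul]
    exact add_mem (add_mem (mul_mem hz.1 hw.2) (mul_mem hz.2 hw.1))
      (mul_mem (mul_mem (zero_mem _) hz.2) hw.2)

private theorem IE.zero (p : Nat.Primes) : IE p 0 := ⟨zero_mem _, zero_mem _⟩

private theorem IE.one (p : Nat.Primes) : IE p 1 := ⟨one_mem _, zero_mem _⟩

private theorem IE.star {p : Nat.Primes} {z : E7 ℚ_[p]} (hz : IE p z) : IE p (star z) := by
  refine ⟨?_, ?_⟩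
  · rw [QuadraticAlgebra.re_star]
    exact add_mem hz.1 (mul_mem (zero_mem _) hz.2)
  · rw [QuadraticAlgebra.im_star]
    exact neg_mem hz.2

private theorem IE.matMul {p : Nat.Primes} {A B : M7 (E7 ℚ_[p])} (hA : ∀ i j, IE p (A i j))
    (hB : ∀ i j, IE p (B i j)) (i j : Fin 7) : IE p ((A * B) i j) := by
  rw [Matrix.mul_apply]
  exact Finset.sum_induction _ (IE p) (fun _ _ => IE.add) (IE.zero p)
    fun k _ => (hA i k).mul (hB k j)

private theorem KZ_iff {p : Nat.Primes} {g : U7 ℚ_[p]} : g ∈ KZ p ↔ ∀ i j, IE p (g.mat i j) :=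
  Iff.rfl

private theorem KZ_one (p : Nat.Primes) : (1 : U7 ℚ_[p]) ∈ KZ p := by
  rw [KZ_iff]
  intro i j
  rw [U7.mat_one, Matrix.one_apply]
  split_ifs
  · exact IE.one p
  · exact IE.zero p

private theorem KZ_mul {p : Nat.Primes} {g h : U7 ℚ_[p]} (hg : g ∈ KZ p) (hh : h ∈ KZ p) :
    g * h ∈ KZ p := by
  rw [KZ_iff] at hg hh ⊢
  intro i j
  rw [U7.mat_mul]
  exact IE.matMul hg hh i j

private theorem KZ_inv {p : Nat.Primes} {g : U7 ℚ_[p]} (hg : g ∈ KZ p) : g⁻¹ ∈ KZ p := by
  rw [KZ_iff] at hg ⊢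
  have hJ : ∀ i j, IE p (J7 (E7 ℚ_[p]) i j) := by
    intro i j
    show IE p (if j = i.rev then 1 else 0)
    split_ifs
    · exact IE.one p
    · exact IE.zero p
  intro i j
  rw [U7.mat_inv]
  refine IE.matMul (IE.matMul hJ fun i j => ?_) hJ i j
  rw [Matrix.conjTranspose_apply]
  exact (hg j i).star

/-! ### The compact open sets -/

private theorem cont_re (i j : Fin 7) : Continuous fun g : U7 AQ => (g.mat i j).re :=
  E7.continuous_re.comp (U7.continuous_mat.matrix_elem i j)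

private theorem cont_im (i j : Fin 7) : Continuous fun g : U7 AQ => (g.mat i j).im :=
  E7.continuous_im.comp (U7.continuous_mat.matrix_elem i j)

private def OA : Set AQ := {x | ∀ p : Nat.Primes, ‖x.2 p‖ ≤ 1}

private theorem VK_eq (V : Set (U7 ℝ)) :
    {g : U7 AQ | U7.map infAQ g ∈ V ∧ ∀ p, U7.map (evp p) g ∈ KZ p} =
      (U7.map infAQ ⁻¹' V) ∩ ⋂ i : Fin 7, ⋂ j : Fin 7,
        ((fun g : U7 AQ => (g.mat i j).re) ⁻¹' OA ∩ (fun g : U7 AQ => (g.mat i j).im) ⁻¹' OA) := by
  ext g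
  constructor
  · rintro ⟨h1, h2⟩
    refine ⟨h1, ?_⟩
    rw [Set.mem_iInter]
    intro i
    rw [Set.mem_iInter]
    intro j
    exact ⟨fun p => (h2 p i j).1, fun p => (h2 p i j).2⟩
  · rintro ⟨h1, h2⟩
    refine ⟨h1, fun p i j => ?_⟩
    rw [Set.mem_iInter] at h2
    have h3 := h2 i
    rw [Set.mem_iInter] at h3
    exact ⟨(h3 j).1 p, (h3 j).2 p⟩

private theorem isOpen_OA : IsOpen OA := isOpen_int.preimage continuous_snd

private theorem isClosed_OA : IsClosed OA :=
  isCompact_int.isClosed.preimage continuous_snd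

private theorem isClosed_VK {V : Set (U7 ℝ)} (hV : IsClosed V) :
    IsClosed {g : U7 AQ | U7.map infAQ g ∈ V ∧ ∀ p, U7.map (evp p) g ∈ KZ p} := by
  rw [VK_eq]
  refine (hV.preimage (U7.continuous_map _ continuous_infAQ)).inter ?_
  refine isClosed_iInter fun i => isClosed_iInter fun j => ?_
  exact (isClosed_OA.preimage (cont_re i j)).inter (isClosed_OA.preimage (cont_im i j))

/-- The elements which are in a compact set `V` at infinity and integral at all primes form a
compact set (closed embedding into the matrices, `isCompact_int`). -/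
theorem isCompact_VK {V : Set (U7 ℝ)} (hV : IsCompact V) :
    IsCompact {g : U7 AQ | U7.map infAQ g ∈ V ∧ ∀ p, U7.map (evp p) g ∈ KZ p} := by
  have hre : ∀ i j, IsCompact ((fun g : U7 ℝ => (g.mat i j).re) '' V) := fun i j =>
    hV.image (E7.continuous_re.comp (U7.continuous_mat.matrix_elem i j))
  have him : ∀ i j, IsCompact ((fun g : U7 ℝ => (g.mat i j).im) '' V) := fun i j =>
    hV.image (E7.continuous_im.comp (U7.continuous_mat.matrix_elem i j))
  obtain ⟨P, hPd⟩ : ∃ P : Fin 7 → Fin 7 → Set (E7 AQ), P = fun i j => (E7.homeo AQ) ⁻¹'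
      ((((fun g : U7 ℝ => (g.mat i j).re) '' V) ×ˢ {x : Af | ∀ p : Nat.Primes, ‖x p‖ ≤ 1}) ×ˢ
      (((fun g : U7 ℝ => (g.mat i j).im) '' V) ×ˢ {x : Af | ∀ p : Nat.Primes, ‖x p‖ ≤ 1})) :=
    ⟨_, rfl⟩
  have hP : ∀ i j, IsCompact (P i j) := by
    intro i j
    rw [hPd]
    exact (E7.homeo AQ).isCompact_preimage.2
      (((hre i j).prod isCompact_int).prod ((him i j).prod isCompact_int))
  have hQ : IsCompact (X := M7 (E7 AQ)) (Set.pi Set.univ fun i => Set.pi Set.univ (P i)) :=
    isCompact_univ_pi fun i => isCompact_univ_pi fun j => hP i j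
  have hQ' := U7.isClosedEmbedding_mat.isCompact_preimage hQ
  refine hQ'.of_isClosed_subset (isClosed_VK hV.isClosed) ?_
  rintro g ⟨h1, h2⟩
  intro i _ j _
  rw [hPd]
  refine ⟨⟨⟨_, h1, rfl⟩, fun p => (h2 p i j).1⟩, ⟨⟨_, h1, rfl⟩, fun p => (h2 p i j).2⟩⟩

theorem isOpen_VK {V : Set (U7 ℝ)} (hV : IsOpen V) :
    IsOpen {g : U7 AQ | U7.map infAQ g ∈ V ∧ ∀ p, U7.map (evp p) g ∈ KZ p} := by
  rw [VK_eq]
  refine (hV.preimage (U7.continuous_map _ continuous_infAQ)).inter ?_
  refine isOpen_iInter_of_finite fun i => isOpen_iInter_of_finite fun j => ?_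
  exact (isOpen_OA.preimage (cont_re i j)).inter (isOpen_OA.preimage (cont_im i j))

private theorem continuous_tr : Continuous (U7.tr : U7 AQ → U7 AQ) := by
  refine U7.isEmbedding_mat.continuous_iff.2 ?_
  exact U7.continuous_mat.matrix_transpose

/-- `D_adelic` for the modular character: `modular_anti` for the transposition, and
`modular_of_stable` for the set of `isCompact_VK` with a compact neighbourhood `V` of `1`. -/
theorem modular_eq_one (g : U7 AQ) : modularCharacter g = 1 := by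
  refine D_adelic modularCharacter (fun g => ?_) (fun k hk1 hk2 => ?_) g
  · exact modular_anti U7.tr continuous_tr U7.tr_mul U7.tr_tr g
  · obtain ⟨V, hVc, hV1⟩ := exists_compact_mem_nhds (1 : U7 ℝ)
    refine modular_of_stable _ (isCompact_VK hVc) ⟨1, ?_⟩ k fun g => ?_
    · have h1 : (1 : U7 AQ) ∈ {g : U7 AQ | U7.map infAQ g ∈ interior V ∧
          ∀ p, U7.map (evp p) g ∈ KZ p} := by
        refine ⟨?_, fun p => ?_⟩
        · rw [map_one]
          exact mem_interior_iff_mem_nhds.2 hV1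
        · rw [map_one]
          exact KZ_one p
      have h2 : {g : U7 AQ | U7.map infAQ g ∈ interior V ∧ ∀ p, U7.map (evp p) g ∈ KZ p} ⊆
          {g : U7 AQ | U7.map infAQ g ∈ V ∧ ∀ p, U7.map (evp p) g ∈ KZ p} :=
        fun g hg => ⟨interior_subset hg.1, hg.2⟩
      exact interior_maximal h2 (isOpen_VK isOpen_interior) h1
    · constructor
      · rintro ⟨h1, h2⟩
        refine ⟨?_, fun p => ?_⟩
        · rw [map_mul, hk1, mul_one] at h1
          exact h1
        · have h3 := KZ_mul (h2 p) (KZ_inv (hk2 p))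
          rw [map_mul, mul_inv_cancel_right] at h3
          exact h3
      · rintro ⟨h1, h2⟩
        refine ⟨?_, fun p => ?_⟩
        · rw [map_mul, hk1, mul_one]
          exact h1
        · rw [map_mul]
          exact KZ_mul (h2 p) (hk2 p)

end Pool.Agent.MPabcfcd
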