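import Pool.Agent.Lib.MP_abcfcd_nt.W.Basic
import Pool.Agent.Lib.MP_abcfcd_nt.Q.Dom

/-!
# The invariant measure on the quotient by a discrete subgroup
-/

set_option autoImplicit false

open MeasureTheory Topology
open scoped ENNReal NNReal Pointwise

namespace Pool.Agent.MPabcfcd

variable {G : Type} [Group G] [TopologicalSpace G] [IsTopologicalGroup G]
  [SecondCountableTopology G] [LocallyCompactSpace G] [T2Space G] [MeasurableSpace G] [BorelSpace G]

/-- For a unimodular group the measure `μ.inv` is again a Haar measure, so it is `c • μ` by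
uniqueness, and `c ^ 2 = 1`. -/
theorem isInvInvariant (μ : Measure G) [μ.IsHaarMeasure] [μ.IsMulRightInvariant] :
    μ.IsInvInvariant := by
  constructor
  let c : ℝ≥0∞ := Measure.haarScalarFactor μ.inv μ
  have hc : μ.inv = c • μ := Measure.isMulLeftInvariant_eq_smul μ.inv μ
  have h1 : Measure.map Inv.inv (Measure.map Inv.inv μ) = c ^ 2 • μ := by
    rw [← Measure.inv_def μ, hc, Measure.map_smul, ← Measure.inv_def μ, hc, smul_smul, pow_two]
  have μeq : μ = c ^ 2 • μ := by
    rw [Measure.map_map continuous_inv.measurable continuous_inv.measurable] at h1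
    simpa only [inv_involutive, Function.Involutive.comp_self, Measure.map_id] using h1
  have K : TopologicalSpace.PositiveCompacts G := Classical.arbitrary _
  have h2 : c ^ 2 * μ K = 1 ^ 2 * μ K := by
    conv_rhs => rw [μeq]
    simp
  have h3 : c ^ 2 = 1 ^ 2 :=
    (ENNReal.mul_left_inj (Measure.measure_pos_of_nonempty_interior _ K.interior_nonempty).ne'
          K.isCompact.measure_lt_top.ne).1 h2
  have h4 : c = 1 := (ENNReal.pow_right_strictMono two_ne_zero).injective h3
  rw [hc, h4, one_smul]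

private theorem weil_map (Γ : Subgroup G) [Countable Γ] (μ : Measure G) [μ.IsHaarMeasure]
    [μ.IsMulRightInvariant] (F : Set G) (hF : IsFundamentalDomain Γ.op F μ) :
    Har.Weil μ Γ (Measure.map (QuotientGroup.mk : G → G ⧸ Γ) (μ.restrict F)) := by
  intro f hf
  have hout : ∀ g : G, (∑' γ : Γ, f ((QuotientGroup.mk g : G ⧸ Γ).out * (γ : G))) =
      ∑' γ : Γ, f (g * (γ : G)) := by
    intro g
    obtain ⟨δ, hδ⟩ := QuotientGroup.mk_out_eq_mul Γ g
    rw [hδ]
    rw [← (Equiv.mulLeft δ).tsum_eq (fun γ : Γ => f (g * (γ : G)))]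
    refine tsum_congr fun γ => ?_
    simp [mul_assoc]
  have hm : Measurable fun x : G ⧸ Γ => ∑' γ : Γ, f (x.out * (γ : G)) := by
    refine QuotientGroup.measurable_from_quotient.2 ?_
    have : ((fun x : G ⧸ Γ => ∑' γ : Γ, f (x.out * (γ : G))) ∘ (QuotientGroup.mk : G → G ⧸ Γ)) =
        fun g => ∑' γ : Γ, f (g * (γ : G)) := funext hout
    rw [this]
    exact Measurable.ennreal_tsum fun γ => hf.comp (measurable_mul_const _)
  rw [lintegral_map hm QuotientGroup.measurable_coe]
  simp only [hout]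
  rw [lintegral_tsum (f := fun (γ : Γ) (a : G) => f (a * (γ : G)))
    fun γ => (hf.comp (measurable_mul_const _)).aemeasurable]
  have : Countable Γ.op := Γ.equivOp.symm.injective.countable
  rw [hF.lintegral_eq_tsum'' f]
  rw [← Γ.equivOp.tsum_eq (fun g : Γ.op => ∫⁻ x in F, f (g • x) ∂μ)]
  rfl

/-- The push forward `m` of `μ.restrict F` for the fundamental domain `F` of
`hasFundamentalDomain`. The formula of Weil is `IsFundamentalDomain.lintegral_eq_tsum''`; a compact
set of the quotient is covered by finitely many images of open sets `W` of finite measure, and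
`m (image of W) ≤ μ W`; the invariance holds since `g • F` is also a fundamental domain
(`IsFundamentalDomain.smul_of_comm`, or
`MeasureTheory.QuotientMeasureEqMeasurePreimage.smulInvariantMeasure_quotient`). -/
theorem weil_exists (Γ : Subgroup G) [Countable Γ] (h : ∃ V ∈ 𝓝 (1 : G), ∀ γ ∈ Γ, γ ∈ V → γ = 1)
    [BorelSpace (G ⧸ Γ)] (μ : Measure G) [μ.IsHaarMeasure] [μ.IsMulRightInvariant] :
    ∃ m : Measure (G ⧸ Γ), Har.Weil μ Γ m ∧ m ≠ 0 ∧ IsFiniteMeasureOnCompacts m ∧
      SMulInvariantMeasure G (G ⧸ Γ) m := by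
  obtain ⟨F, hFm, hF, hF1⟩ := hasFundamentalDomain Γ h μ
  have hco : Countable Γ.op := Γ.equivOp.symm.injective.countable
  have hW := weil_map Γ μ F hF
  set m := Measure.map (QuotientGroup.mk : G → G ⧸ Γ) (μ.restrict F) with hm
  refine ⟨m, hW, ?_, ?_, ?_⟩
  · intro h0
    have h1 : m Set.univ = 0 := by rw [h0]; rfl
    rw [hm, Measure.map_apply QuotientGroup.measurable_coe MeasurableSet.univ,
      Set.preimage_univ, Measure.restrict_apply_univ] at h1
    exact hF.measure_ne_zero (NeZero.ne μ) h1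
  · have hloc : IsLocallyFiniteMeasure m := by
      refine ⟨fun x => ?_⟩
      obtain ⟨g, rfl⟩ := QuotientGroup.mk_surjective x
      obtain ⟨W, hgW, hWo, hWfin⟩ := μ.exists_isOpen_measure_lt_top g
      have hop : IsOpen ((QuotientGroup.mk : G → G ⧸ Γ) '' W) :=
        QuotientGroup.isOpenMap_coe W hWo
      refine ⟨(QuotientGroup.mk : G → G ⧸ Γ) '' W, hop.mem_nhds ⟨g, hgW, rfl⟩, ?_⟩
      refine lt_of_le_of_lt ?_ hWfin
      have h1 := hW (W.indicator 1) (measurable_one.indicator hWo.measurableSet)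
      rw [lintegral_indicator_one hWo.measurableSet] at h1
      rw [← h1, ← lintegral_indicator_one hop.measurableSet]
      refine lintegral_mono fun y => ?_
      by_cases hy : y ∈ (QuotientGroup.mk : G → G ⧸ Γ) '' W
      · rw [Set.indicator_of_mem hy]
        obtain ⟨w, hw, hwy⟩ := hy
        have h2 : (y.out)⁻¹ * w ∈ Γ := by
          rw [← QuotientGroup.eq, QuotientGroup.out_eq', hwy]
        refine le_trans ?_ (ENNReal.le_tsum (⟨_, h2⟩ : Γ))
        show (1 : G ⧸ Γ → ℝ≥0∞) y ≤ W.indicator 1 (y.out * ((y.out)⁻¹ * w))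
        rw [mul_inv_cancel_left, Set.indicator_of_mem hw]
        exact le_rfl
      · rw [Set.indicator_of_notMem hy]
        exact bot_le
    infer_instance
  · refine ⟨fun g A hA => ?_⟩
    have hgm : Measurable fun x : G ⧸ Γ => g • x := (continuous_const_smul g).measurable
    rw [hm, Measure.map_apply QuotientGroup.measurable_coe hA,
      Measure.map_apply QuotientGroup.measurable_coe (hgm hA)]
    have hA' : MeasurableSet ((QuotientGroup.mk : G → G ⧸ Γ) ⁻¹' A) :=
      QuotientGroup.measurable_coe hA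
    rw [Measure.restrict_apply hA', Measure.restrict_apply
      (QuotientGroup.measurable_coe (hgm hA))]
    have h1 := hF.smul_of_comm g
    have h2 := hF.measure_set_eq h1 hA' (by
      rintro ⟨γ, hγ⟩
      ext x
      have hγ' : MulOpposite.unop γ ∈ Γ := Subgroup.mem_op.1 hγ
      have h3 : (QuotientGroup.mk (x * MulOpposite.unop γ) : G ⧸ Γ) = QuotientGroup.mk x :=
        QuotientGroup.mk_mul_of_mem x hγ'
      show (QuotientGroup.mk (x * MulOpposite.unop γ) : G ⧸ Γ) ∈ A ↔ QuotientGroup.mk x ∈ A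
      rw [h3])
    rw [h2, ← measure_preimage_mul μ g (QuotientGroup.mk ⁻¹' A ∩ g • F)]
    congr 1
    ext x
    simp only [Set.mem_inter_iff, Set.mem_preimage]
    rw [Set.mem_smul_set_iff_inv_smul_mem]
    simp

/-- Only finitely many elements of `Γ` are in a compact set. -/
theorem dis_of_nhds (Γ : Subgroup G) (h : ∃ V ∈ 𝓝 (1 : G), ∀ γ ∈ Γ, γ ∈ V → γ = 1) :
    Har.Dis Γ := by
  obtain ⟨V, hV, hV1⟩ := h
  have hc : Continuous fun p : G × G => p.1⁻¹ * p.2 := by fun_prop
  have hc1 : (fun p : G × G => p.1⁻¹ * p.2) ⁻¹' V ∈ 𝓝 ((1 : G), (1 : G)) := by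
    refine hc.continuousAt.preimage_mem_nhds ?_
    simpa using hV
  rw [nhds_prod_eq, Filter.mem_prod_same_iff] at hc1
  obtain ⟨W, hW, hsub⟩ := hc1
  intro K hK
  refine hK.induction_on (p := fun S => (S ∩ (Γ : Set G)).Finite) (by simp) ?_ ?_ ?_
  · intro s t hst ht
    exact ht.subset (Set.inter_subset_inter_left _ hst)
  · intro s t hs ht
    rw [Set.union_inter_distrib_right]
    exact hs.union ht
  · intro x _
    have h1 : {y : G | x⁻¹ * y ∈ W} ∈ 𝓝 x := by
      have h2 : Continuous fun y : G => x⁻¹ * y := by fun_prop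
      refine h2.continuousAt.preimage_mem_nhds ?_
      simpa using hW
    refine ⟨_, mem_nhdsWithin_of_mem_nhds h1, Set.Subsingleton.finite ?_⟩
    rintro a ⟨ha, haΓ⟩ b ⟨hb, hbΓ⟩
    have h3 : (x⁻¹ * a)⁻¹ * (x⁻¹ * b) ∈ V := hsub (Set.mk_mem_prod ha hb)
    have h4 : (x⁻¹ * a)⁻¹ * (x⁻¹ * b) = a⁻¹ * b := by group
    rw [h4] at h3
    have h5 := hV1 _ (Γ.mul_mem (Γ.inv_mem haΓ) hbΓ) h3
    exact inv_mul_eq_one.1 h5

end Pool.Agent.MPabcfcd
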