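import Pool.Agent.Lib.MP_abcfcd_nt.Q.Top

/-!
# Topological properties of the unitary group
-/

set_option autoImplicit false

open Matrix Topology MeasureTheory
open scoped RestrictedProduct

namespace Pool.Agent.MPabcfcd

section

variable {R : Type} [CommRing R] [TopologicalSpace R]

instance [T2Space R] : T2Space (E7 R) := (E7.homeo R).symm.t2Space

instance [SecondCountableTopology R] : SecondCountableTopology (E7 R) :=
  (E7.homeo R).secondCountableTopology

instance [LocallyCompactSpace R] : LocallyCompactSpace (E7 R) :=
  (E7.homeo R).isClosedEmbedding.locallyCompactSpace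

theorem U7.isClosedEmbedding_mat [IsTopologicalRing R] [T2Space R] :
    IsClosedEmbedding (U7.mat : U7 R → M7 (E7 R)) := by
  refine ⟨U7.isEmbedding_mat, ?_⟩
  have hr : Set.range (U7.mat : U7 R → M7 (E7 R)) =
      {g : M7 (E7 R) | gᴴ * J7 (E7 R) * g = J7 (E7 R)} := by
    ext g
    constructor
    · rintro ⟨h, rfl⟩
      exact h.star_mul_mat
    · intro h
      exact ⟨⟨g, h⟩, rfl⟩
  rw [hr]
  exact isClosed_eq (((continuous_id.matrix_conjTranspose).matrix_mul
    continuous_const).matrix_mul continuous_id) continuous_const

instance [T2Space R] : T2Space (U7 R) := by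
  have : T2Space (M7 (E7 R)) := inferInstanceAs (T2Space (Fin 7 → Fin 7 → E7 R))
  exact U7.isEmbedding_mat.t2Space

instance [SecondCountableTopology R] : SecondCountableTopology (U7 R) := by
  have : SecondCountableTopology (M7 (E7 R)) :=
    inferInstanceAs (SecondCountableTopology (Fin 7 → Fin 7 → E7 R))
  exact U7.isEmbedding_mat.secondCountableTopology

instance [IsTopologicalRing R] [T2Space R] [LocallyCompactSpace R] :
    LocallyCompactSpace (U7 R) := by
  have : LocallyCompactSpace (M7 (E7 R)) :=
    inferInstanceAs (LocallyCompactSpace (Fin 7 → Fin 7 → E7 R))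
  exact U7.isClosedEmbedding_mat.locallyCompactSpace

end

private theorem polishSpace_Af : PolishSpace Af := by
  let : UniformSpace Af := IsTopologicalAddGroup.rightUniformSpace Af
  have : IsUniformAddGroup Af := isUniformAddGroup_of_addCommGroup
  have : CompleteSpace Af := IsRightUniformAddGroup.completeSpace_of_weaklyLocallyCompactSpace
  have : (_root_.uniformity Af).IsCountablyGenerated :=
    IsUniformAddGroup.uniformity_countably_generated
  infer_instance

/-- `AQ` is a locally compact second countable Hausdorff additive group, hence complete and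
metrizable for its uniform structure. -/
instance : PolishSpace AQ := by
  have := polishSpace_Af
  infer_instance

private theorem polishSpace_E7 : PolishSpace (E7 AQ) :=
  (E7.homeo AQ).isClosedEmbedding.polishSpace

instance : PolishSpace (U7 AQ) := by
  have := polishSpace_E7
  have : PolishSpace (M7 (E7 AQ)) := inferInstanceAs (PolishSpace (Fin 7 → Fin 7 → E7 AQ))
  exact U7.isClosedEmbedding_mat.polishSpace

theorem U7.continuous_map {R S : Type} [CommRing R] [CommRing S] [TopologicalSpace R]
    [TopologicalSpace S] (f : R →+* S) (hf : Continuous f) : Continuous (U7.map f) := by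
  refine U7.isEmbedding_mat.continuous_iff.2 ?_
  have h1 : Continuous (E7.map f) := E7.continuous_mk (hf.comp E7.continuous_re)
    (hf.comp E7.continuous_im)
  exact U7.continuous_mat.matrix_map h1

theorem continuous_infAQ : Continuous infAQ := continuous_fst

theorem continuous_finAQ : Continuous finAQ := continuous_snd

theorem continuous_evp (p : Nat.Primes) : Continuous (evp p) :=
  (RestrictedProduct.continuous_eval p).comp continuous_snd

instance : Countable Gam := by
  have : Countable (E7 ℚ) := (QuadraticAlgebra.equivProd (-7 : ℚ) 0).injective.countable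
  have : Countable (M7 (E7 ℚ)) := inferInstanceAs (Countable (Fin 7 → Fin 7 → E7 ℚ))
  have : Countable (U7 ℚ) := U7.mat_injective.countable
  exact (MonoidHom.rangeRestrict_surjective (U7.map ratAQ)).countable

/-- The open neighbourhood `{(x, y) : |x| < 1, y integral}` of zero in `AQ`. -/
private def VA : Set AQ := {x | |x.1| < 1 ∧ ∀ p : Nat.Primes, ‖x.2 p‖ ≤ 1}

private theorem isOpen_VA : IsOpen VA :=
  (isOpen_lt (continuous_fst.abs) continuous_const).inter (isOpen_int.preimage continuous_snd)

private theorem zero_mem_VA : (0 : AQ) ∈ VA := by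
  refine ⟨by simp, fun p => ?_⟩
  have h : (0 : AQ).2 p = 0 := rfl
  rw [h]
  simp

private theorem eq_zero_of_mem_VA (q : ℚ) (h : ratAQ q ∈ VA) : q = 0 := by
  obtain ⟨n, hn⟩ := int_of_norm_le q h.2
  have h1 : |((q : ℚ) : ℝ)| < 1 := h.1
  rw [← hn] at h1
  have h2 : |((n : ℤ) : ℝ)| < 1 := by exact_mod_cast h1
  have h3 : |n| < 1 := by exact_mod_cast h2
  have h4 : n = 0 := by rwa [Int.abs_lt_one_iff] at h3
  rw [← hn, h4]
  simp

/-- The neighbourhood `{(x, y) : |x| < 1, y integral}` of zero in `AQ` contains no nonzero rational
number (`int_of_norm_le`). -/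
theorem exists_nhds_Gam : ∃ V ∈ 𝓝 (1 : U7 AQ), ∀ γ ∈ Gam, γ ∈ V → γ = 1 := by
  refine ⟨{g | ∀ i j, ((g.mat - 1) i j).re ∈ VA ∧ ((g.mat - 1) i j).im ∈ VA}, ?_, ?_⟩
  · refine IsOpen.mem_nhds ?_ ?_
    · simp only [Set.ofPred_forall]
      refine isOpen_iInter_of_finite fun i => isOpen_iInter_of_finite fun j => ?_
      have hc : Continuous fun g : U7 AQ => (g.mat - 1) i j :=
        (U7.continuous_mat.sub continuous_const).matrix_elem i j
      exact (isOpen_VA.preimage (E7.continuous_re.comp hc)).inter
        (isOpen_VA.preimage (E7.continuous_im.comp hc))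
    · intro i j
      have h : ((1 : U7 AQ).mat - 1) i j = 0 := by
        rw [U7.mat_one, sub_self]
        rfl
      rw [h]
      exact ⟨zero_mem_VA, zero_mem_VA⟩
  · rintro γ ⟨g, rfl⟩ hγ
    have hm : ∀ i j, (((U7.map ratAQ g).mat - 1) i j) = E7.map ratAQ ((g.mat - 1) i j) := by
      intro i j
      have h1 : (1 : M7 (E7 AQ)) i j = E7.map ratAQ ((1 : M7 (E7 ℚ)) i j) := by
        by_cases hij : i = j
        · subst hij
          simp
        · simp [Matrix.one_apply_ne hij]
      rw [Matrix.sub_apply, Matrix.sub_apply, map_sub, h1]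
      rfl
    have hg : g = 1 := by
      refine U7.ext ?_
      have h0 : g.mat - 1 = 0 := by
        refine Matrix.ext fun i j => ?_
        have h2 := hγ i j
        rw [hm i j] at h2
        refine QuadraticAlgebra.ext ?_ ?_
        · exact eq_zero_of_mem_VA _ h2.1
        · exact eq_zero_of_mem_VA _ h2.2
      rw [U7.mat_one]
      exact sub_eq_zero.1 h0
    rw [hg, map_one]

instance : DiscreteTopology Gam := by
  obtain ⟨V, hV, h⟩ := exists_nhds_Gam
  obtain ⟨W, hWV, hWo, h1W⟩ := mem_nhds_iff.1 hV
  refine discreteTopology_of_isOpen_singleton_one ?_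
  have hs : ({1} : Set Gam) = (Subtype.val : Gam → U7 AQ) ⁻¹' W := by
    ext γ
    constructor
    · intro hγ
      have h1 : γ = 1 := hγ
      rw [h1]
      exact h1W
    · intro hγ
      exact Subtype.ext (h γ.1 γ.2 (hWV hγ))
  rw [hs]
  exact hWo.preimage continuous_subtype_val

theorem isClosed_Gam : IsClosed (Gam : Set (U7 AQ)) := Subgroup.isClosed_of_discrete

instance : T2Space GX := by
  have := isClosed_Gam
  infer_instance

instance : SecondCountableTopology GX :=
  QuotientGroup.isOpenQuotientMap_mk.isQuotientMap.secondCountableTopology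
    QuotientGroup.isOpenQuotientMap_mk.isOpenMap

instance : LocallyCompactSpace GX := QuotientGroup.instLocallyCompactSpace Gam

/-- The Borel structure on the quotient. -/
instance : BorelSpace GX := CosetSpace.borelSpace

end Pool.Agent.MPabcfcd
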