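import Pool.Agent.Lib.MP_abcfcd_nt.Lgrp

/-!
# The finite adeles
-/

set_option autoImplicit false

open Matrix Topology MeasureTheory
open scoped RestrictedProduct

namespace Pool.Agent.MPabcfcd

/-- The finite adeles are the union of the open subspaces of the elements which are integral
outside a finite set of primes; these are countably many, and each of them is embedded in the
product of the `ℚ_[p]` (`RestrictedProduct.isOpenEmbedding_inclusion_principal`,
`RestrictedProduct.isEmbedding_coe_of_principal`). -/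
instance : SecondCountableTopology Af := by
  have hc : ∀ S : Finset Nat.Primes, Filter.cofinite ≤ Filter.principal ((S : Set Nat.Primes)ᶜ) :=
    fun S => Filter.le_principal_iff.2 S.finite_toSet.compl_mem_cofinite
  let U : Finset Nat.Primes → Set Af := fun S => Set.range
    (RestrictedProduct.inclusion (fun p : Nat.Primes => ℚ_[p])
      (fun p : Nat.Primes => ((PadicInt.subring p : Subring ℚ_[p]) : Set ℚ_[p])) (hc S))
  have hE : ∀ S, IsOpenEmbedding (RestrictedProduct.inclusion (fun p : Nat.Primes => ℚ_[p])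
      (fun p : Nat.Primes => ((PadicInt.subring p : Subring ℚ_[p]) : Set ℚ_[p])) (hc S)) :=
    fun S => RestrictedProduct.isOpenEmbedding_inclusion_principal Fact.out (hc S)
  have : ∀ S, SecondCountableTopology (U S) := by
    intro S
    have : SecondCountableTopology (RestrictedProduct (fun p : Nat.Primes => ℚ_[p])
        (fun p : Nat.Primes => ((PadicInt.subring p : Subring ℚ_[p]) : Set ℚ_[p]))
        (Filter.principal ((S : Set Nat.Primes)ᶜ))) :=
      RestrictedProduct.isEmbedding_coe_of_principal.secondCountableTopology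
    exact (hE S).isEmbedding.toHomeomorph.symm.secondCountableTopology
  refine TopologicalSpace.secondCountableTopology_of_countable_cover (U := U)
    (fun S => (hE S).isOpen_range) ?_
  rw [Set.eq_univ_iff_forall]
  intro x
  have hx : {p : Nat.Primes | ¬ x p ∈ (PadicInt.subring p : Subring ℚ_[p])}.Finite := x.2
  refine Set.mem_iUnion.2 ⟨hx.toFinset, ?_⟩
  change x ∈ Set.range _
  rw [RestrictedProduct.range_inclusion, Set.mem_ofPred_eq, Filter.eventually_principal]
  intro p hp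
  by_contra hn
  exact hp (by simpa using hn)

private theorem top_nat_norm (p : Nat.Primes) (n : ℕ) : ‖(n : ℚ_[p])‖ ≤ 1 := by
  have := Padic.norm_int_le_one (p := p) (n : ℤ)
  simpa using this

private theorem top_exists_pow (p : Nat.Primes) (r : ℝ) : ∃ k : ℕ, r ≤ ((p : ℕ) : ℝ) ^ k := by
  have h1 : (1 : ℝ) < ((p : ℕ) : ℝ) := by exact_mod_cast p.2.one_lt
  obtain ⟨k, hk⟩ := pow_unbounded_of_one_lt r h1
  exact ⟨k, hk.le⟩

theorem exists_nat_mul_int (x : Af) :
    ∃ N : ℕ, 0 < N ∧ ∀ p : Nat.Primes, ‖(N : ℚ_[p]) * x p‖ ≤ 1 := by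
  classical
  have hfin : {p : Nat.Primes | ¬ ‖x p‖ ≤ 1}.Finite := x.2
  choose k hk using fun p : Nat.Primes => top_exists_pow p ‖x p‖
  refine ⟨∏ p ∈ hfin.toFinset, (p : ℕ) ^ (k p), Finset.prod_pos fun p _ => pow_pos p.2.pos _,
    fun p => ?_⟩
  by_cases hp : ‖x p‖ ≤ 1
  · rw [norm_mul]
    exact mul_le_one₀ (top_nat_norm p _) (norm_nonneg _) hp
  · have hm : p ∈ hfin.toFinset := by simpa using hp
    rw [← Finset.mul_prod_erase _ _ hm, Nat.cast_mul, mul_right_comm, norm_mul]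
    refine mul_le_one₀ ?_ (norm_nonneg _) (top_nat_norm p _)
    rw [norm_mul, Nat.cast_pow, norm_pow, Padic.norm_p, inv_pow,
      inv_mul_le_iff₀ (pow_pos (by exact_mod_cast p.2.pos) _), mul_one]
    exact hk p

/-- A common denominator for finitely many finite adeles. -/
theorem exists_nat_mul_int_fin {ι : Type} [Finite ι] (x : ι → Af) :
    ∃ N : ℕ, 0 < N ∧ ∀ (i : ι) (p : Nat.Primes), ‖(N : ℚ_[p]) * x i p‖ ≤ 1 := by
  classical
  have := Fintype.ofFinite ι
  choose N hN0 hN using fun i => exists_nat_mul_int (x i)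
  refine ⟨∏ i, N i, Finset.prod_pos fun i _ => hN0 i, fun i p => ?_⟩
  rw [← Finset.mul_prod_erase _ _ (Finset.mem_univ i), Nat.cast_mul, mul_right_comm, norm_mul]
  exact mul_le_one₀ (hN i p) (norm_nonneg _) (top_nat_norm p _)

/-- Strong approximation: first `x = y / M` with `y` integral; a natural number `a` with
`‖y p - a‖ ≤ ‖M N‖` at the finitely many primes dividing `M N` exists by the density of `ℕ` in
`ℤ_[p]` and the Chinese remainder theorem; `q = a / M`. -/
theorem strong_approx (x : Af) (N : ℕ) (hN : 0 < N) :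
    ∃ q : ℚ, ∀ p : Nat.Primes, ‖x p - (q : ℚ_[p])‖ ≤ ‖(N : ℚ_[p])‖ := by
  classical
  obtain ⟨M, hM, hMx⟩ := exists_nat_mul_int x
  have hMN : M * N ≠ 0 := (Nat.mul_pos hM hN).ne'
  -- the primes dividing `M * N`
  have hfin : {p : Nat.Primes | (p : ℕ) ∣ M * N}.Finite := by
    refine Set.Finite.of_finite_image (f := fun p : Nat.Primes => (p : ℕ)) ?_
      (fun a _ b _ h => Subtype.ext h)
    refine (Set.finite_Iic (M * N)).subset ?_
    rintro _ ⟨p, hp, rfl⟩
    exact Nat.le_of_dvd (Nat.pos_of_ne_zero hMN) hp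
  -- exponents
  have hpos : ∀ p : Nat.Primes, 0 < ‖((M * N : ℕ) : ℚ_[p])‖ := fun p =>
    norm_pos_iff.2 (by exact_mod_cast hMN)
  have he : ∀ p : Nat.Primes, ∃ e : ℕ, (((p : ℕ) : ℝ) ^ e)⁻¹ ≤ ‖((M * N : ℕ) : ℚ_[p])‖ := by
    intro p
    obtain ⟨e, h⟩ := top_exists_pow p ‖((M * N : ℕ) : ℚ_[p])‖⁻¹
    exact ⟨e, inv_le_of_inv_le₀ (hpos p) h⟩
  choose e he using he
  let y : ∀ p : Nat.Primes, ℤ_[p] := fun p => ⟨(M : ℚ_[p]) * x p, hMx p⟩
  obtain ⟨a, ha⟩ := Nat.chineseRemainderOfFinset (fun p : Nat.Primes => (y p).appr (e p))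
    (fun p : Nat.Primes => (p : ℕ) ^ (e p)) hfin.toFinset
    (fun p _ => (pow_pos p.2.pos _).ne') (fun p _ q _ hpq =>
      Nat.Coprime.pow _ _ ((Nat.coprime_primes p.2 q.2).2 fun h => hpq (Subtype.ext h)))
  have hya : ∀ p : Nat.Primes, ‖(M : ℚ_[p]) * x p - (a : ℚ_[p])‖ ≤ ‖((M * N : ℕ) : ℚ_[p])‖ := by
    intro p
    have h0 : (M : ℚ_[p]) * x p - (a : ℚ_[p]) = ((y p - (a : ℤ_[p]) : ℤ_[p]) : ℚ_[p]) := by
      push_cast
      rfl
    rw [h0, ← PadicInt.norm_def]
    by_cases hp : (p : ℕ) ∣ M * N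
    · refine le_trans ?_ (he p)
      have h1 := ha p (by simpa using hp)
      have h2 := PadicInt.appr_spec (e p) (y p)
      have h3 : ((((y p).appr (e p) : ℕ) : ℤ_[p]) - (a : ℤ_[p])) ∈
          Ideal.span {((p : ℕ) : ℤ_[p]) ^ (e p)} := by
        rw [Ideal.mem_span_singleton]
        have h4 := (Nat.modEq_iff_dvd.1 h1)
        obtain ⟨c, hc⟩ := h4
        refine ⟨(c : ℤ_[p]), ?_⟩
        have h5 := congrArg (fun z : ℤ => (z : ℤ_[p])) hc
        push_cast at h5
        exact h5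
      have h6 : y p - (a : ℤ_[p]) ∈ Ideal.span {((p : ℕ) : ℤ_[p]) ^ (e p)} := by
        have h7 := Ideal.add_mem _ h2 h3
        rwa [sub_add_sub_cancel] at h7
      have h8 := (PadicInt.norm_le_pow_iff_mem_span_pow (y p - (a : ℤ_[p])) (e p)).2 h6
      rwa [_root_.zpow_neg, zpow_natCast] at h8
    · have h1 : ‖((M * N : ℕ) : ℚ_[p])‖ = 1 := by
        rw [Padic.norm_natCast_eq_one_iff]
        exact (Nat.Prime.coprime_iff_not_dvd p.2).2 hp
      rw [h1]
      exact PadicInt.norm_le_one _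
  refine ⟨(a : ℚ) / M, fun p => ?_⟩
  have hMp : (M : ℚ_[p]) ≠ 0 := by exact_mod_cast hM.ne'
  have h1 : x p - (((a : ℚ) / M : ℚ) : ℚ_[p]) =
      ((M : ℚ_[p]) * x p - (a : ℚ_[p])) * (M : ℚ_[p])⁻¹ := by
    push_cast
    field_simp
  rw [h1, norm_mul, norm_inv, ← div_eq_mul_inv, div_le_iff₀ (norm_pos_iff.2 hMp)]
  refine (hya p).trans ?_
  rw [Nat.cast_mul, norm_mul, mul_comm]

theorem int_of_norm_le (q : ℚ) (h : ∀ p : Nat.Primes, ‖(q : ℚ_[p])‖ ≤ 1) :
    ∃ n : ℤ, (n : ℚ) = q := by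
  refine ⟨q.num, ?_⟩
  refine Rat.coe_int_num_of_den_eq_one ?_
  by_contra hne
  obtain ⟨p, hp, hdvd⟩ := Nat.exists_prime_and_dvd hne
  have : Fact p.Prime := ⟨hp⟩
  have h1 := PadicInt.isUnit_den q (h ⟨p, hp⟩)
  rw [PadicInt.isUnit_iff] at h1
  have h2 := (PadicInt.norm_int_lt_one_iff_dvd (p := p) (q.den : ℤ)).2 (by exact_mod_cast hdvd)
  have h3 : ‖((q.den : ℤ) : ℤ_[p])‖ = ‖(q.den : ℤ_[p])‖ := by simp
  rw [h3] at h2
  exact absurd h1 h2.ne

/-- The finite adeles which are integral at all primes form a compact set. -/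
theorem isCompact_int : IsCompact {x : Af | ∀ p : Nat.Primes, ‖x p‖ ≤ 1} := by
  have h1 : {x : Af | ∀ p : Nat.Primes, ‖x p‖ ≤ 1} = Set.range
      (RestrictedProduct.structureMap (fun p : Nat.Primes => ℚ_[p])
      (fun p : Nat.Primes => ((PadicInt.subring p : Subring ℚ_[p]) : Set ℚ_[p]))
      Filter.cofinite) := by
    rw [RestrictedProduct.range_structureMap]
    rfl
  rw [h1]
  have : ∀ p : Nat.Primes, CompactSpace ((PadicInt.subring p : Subring ℚ_[p]) : Set ℚ_[p]) :=
    fun p => inferInstanceAs (CompactSpace ℤ_[p])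
  exact isCompact_range RestrictedProduct.isEmbedding_structureMap.continuous

/-- The finite adeles which are integral at all primes form an open set. -/
theorem isOpen_int : IsOpen {x : Af | ∀ p : Nat.Primes, ‖x p‖ ≤ 1} :=
  RestrictedProduct.isOpen_forall_mem (R := fun p : Nat.Primes => ℚ_[p])
    (A := fun p : Nat.Primes => ((PadicInt.subring p : Subring ℚ_[p]) : Set ℚ_[p])) Fact.out

end Pool.Agent.MPabcfcd
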