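import Mathlib

/-!
# The modular character
-/

set_option autoImplicit false

open MeasureTheory Measure Topology
open scoped NNReal Pointwise

namespace Pool.Agent.MPabcfcd

variable {G : Type*} [Group G] [TopologicalSpace G] [IsTopologicalGroup G] [LocallyCompactSpace G]

private theorem modular_aut (φ : G ≃ₜ* G) (g : G) :
    modularCharacter (φ g) = modularCharacter g := by
  borelize G
  have hm : Measurable (φ : G → G) := φ.continuous.measurable
  have h1 : IsHaarMeasure (map φ (haar : Measure G)) :=
    φ.isHaarMeasure_map haar
  change modularCharacterFun (φ g) = modularCharacterFun g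
  rw [modularCharacterFun_eq_haarScalarFactor (map φ (haar : Measure G)) (φ g),
    modularCharacterFun_eq_haarScalarFactor (haar : Measure G) g]
  have h2 : map (· * φ g) (map φ (haar : Measure G)) = map φ (map (· * g) (haar : Measure G)) := by
    rw [map_map (measurable_mul_const _) hm, map_map hm (measurable_mul_const _)]
    congr 1
    ext x
    simp
  simp only [h2]
  exact haarScalarFactor_map _ _ φ

/-- For a continuous anti-automorphism `σ` the automorphism `φ g = σ g⁻¹` preserves the modular
character, by the uniqueness of the Haar measure. -/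
theorem modular_anti [T2Space G] (σ : G → G) (hσ : Continuous σ) (h1 : ∀ g h, σ (g * h) = σ h * σ g)
    (h2 : ∀ g, σ (σ g) = g) (g : G) : modularCharacter (σ g) * modularCharacter g = 1 := by
  have hone : σ 1 = 1 := by
    have h := h1 1 1
    rw [one_mul] at h
    exact (left_eq_mul.mp h)
  have hinv : ∀ x, σ x⁻¹ = (σ x)⁻¹ := fun x => by
    have h := h1 x x⁻¹
    rw [mul_inv_cancel, hone] at h
    exact eq_inv_of_mul_eq_one_left h.symm
  have hinvol : ∀ x, (σ ((σ x)⁻¹))⁻¹ = x := fun x => by rw [hinv, h2, inv_inv]
  let φ : G ≃ₜ* G :=
    { toFun := fun x => (σ x)⁻¹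
      invFun := fun x => (σ x)⁻¹
      left_inv := hinvol
      right_inv := hinvol
      map_mul' := fun x y => by rw [h1, mul_inv_rev]
      continuous_toFun := hσ.inv
      continuous_invFun := hσ.inv }
  have h := modular_aut φ g
  have h' : modularCharacter (σ g)⁻¹ = modularCharacter g := h
  rw [← h', ← map_mul, mul_inv_cancel, map_one]

/-- A compact set with nonempty interior and `C k = C` has finite positive Haar measure. -/
theorem modular_of_stable [T2Space G] (C : Set G) (hC : IsCompact C) (hC2 : (interior C).Nonempty)
    (k : G) (hk : ∀ g, g * k ∈ C ↔ g ∈ C) : modularCharacter k = 1 := by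
  borelize G
  have hcl : IsCompact (closure C) := by rwa [hC.isClosed.closure_eq]
  have hmeas : MeasurableSet C := hC.isClosed.measurableSet
  have h1 : (map (· * k) (haar : Measure G)) C =
      haarScalarFactor (map (· * k) (haar : Measure G)) (haar : Measure G) •
        (haar : Measure G) C :=
    measure_isMulInvariant_eq_smul_of_isCompact_closure _ _ hcl
  rw [← modularCharacterFun_eq_haarScalarFactor (haar : Measure G) k,
    map_apply (measurable_mul_const _) hmeas] at h1
  have h2 : (fun x : G => x * k) ⁻¹' C = C := by
    ext x
    exact hk x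
  rw [h2] at h1
  have h3 : (haar : Measure G) C ≠ 0 :=
    ((measure_pos_of_nonempty_interior _ hC2).ne')
  have h4 : (haar : Measure G) C ≠ ⊤ := hC.measure_lt_top.ne
  change modularCharacterFun k = 1
  have h5 : ((modularCharacterFun k : ℝ≥0) : ENNReal) * (haar : Measure G) C =
      1 * (haar : Measure G) C := by
    rw [one_mul]
    exact h1.symm
  have h6 := (ENNReal.mul_left_inj h3 h4).mp h5
  exact_mod_cast h6

/-- A group with trivial modular character is unimodular. -/
theorem right_invariant [T2Space G] [SecondCountableTopology G] [MeasurableSpace G] [BorelSpace G]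
    (h : ∀ g : G, modularCharacter g = 1) (μ : Measure G) [IsHaarMeasure μ] :
    μ.IsMulRightInvariant := by
  refine ⟨fun g => ?_⟩
  have h1 := isMulLeftInvariant_eq_smul (map (· * g) μ) μ
  rw [← modularCharacterFun_eq_haarScalarFactor μ g] at h1
  have h2 : modularCharacterFun g = 1 := h g
  rw [h2, one_smul] at h1
  exact h1

end Pool.Agent.MPabcfcd
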