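import Pool.Agent.Lib.MP_abcfcd_nt.Q.Gen
import Pool.Agent.Lib.MP_abcfcd_nt.Q.Grp
import Pool.Agent.Lib.MP_abcfcd_nt.Q.Mod

/-!
# The local groups in the adelic group
-/

set_option autoImplicit false

open Matrix Topology
open scoped NNReal RestrictedProduct

namespace Pool.Agent.MPabcfcd

private theorem AQ_ext' {x y : AQ} (h1 : infAQ x = infAQ y) (h2 : ∀ p, evp p x = evp p y) :
    x = y := by
  refine Prod.ext h1 ?_
  ext p
  exact h2 p

private theorem M7_ext' {A B : M7 (E7 AQ)} (h1 : mapM infAQ A = mapM infAQ B)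
    (h2 : ∀ p, mapM (evp p) A = mapM (evp p) B) : A = B := by
  refine Matrix.ext fun i j => QuadraticAlgebra.ext ?_ ?_
  · exact AQ_ext' (congrArg (fun M : M7 (E7 ℝ) => (M i j).re) h1)
      fun p => congrArg (fun M : M7 (E7 ℚ_[p]) => (M i j).re) (h2 p)
  · exact AQ_ext' (congrArg (fun M : M7 (E7 ℝ) => (M i j).im) h1)
      fun p => congrArg (fun M : M7 (E7 ℚ_[p]) => (M i j).im) (h2 p)

/-- Two adelic unitary matrices with the same components are equal. -/
theorem U7.ext_comp {g h : U7 AQ} (h1 : U7.map infAQ g = U7.map infAQ h)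
    (h2 : ∀ p, U7.map (evp p) g = U7.map (evp p) h) : g = h := by
  exact U7.ext (M7_ext' (congrArg U7.mat h1) fun p => congrArg U7.mat (h2 p))

private theorem mapM_form {R S : Type} [CommRing R] [CommRing S] (f : R →+* S) (A : M7 (E7 R)) :
    mapM f (Aᴴ * J7 (E7 R) * A) = (mapM f A)ᴴ * J7 (E7 S) * mapM f A := by
  rw [← mapM_star, ← mapM_J f]
  simp only [mapM]
  rw [Matrix.map_mul, Matrix.map_mul]

/-- An adelic unitary matrix with given components. -/
private theorem exists_comp (a : U7 ℝ) (b : ∀ p : Nat.Primes, U7 ℚ_[p])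
    (hb : ∀ᶠ p in Filter.cofinite, b p ∈ KZ p) :
    ∃ g : U7 AQ, U7.map infAQ g = a ∧ ∀ p, U7.map (evp p) g = b p := by
  have hre : ∀ i j, ∀ᶠ p : Nat.Primes in Filter.cofinite,
      ((b p).mat i j).re ∈ (PadicInt.subring p : Subring ℚ_[p]) :=
    fun i j => hb.mono fun p hp => (hp i j).1
  have him : ∀ i j, ∀ᶠ p : Nat.Primes in Filter.cofinite,
      ((b p).mat i j).im ∈ (PadicInt.subring p : Subring ℚ_[p]) :=
    fun i j => hb.mono fun p hp => (hp i j).2
  let M : M7 (E7 AQ) := Matrix.of fun i j =>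
    ⟨((a.mat i j).re, ⟨fun p => ((b p).mat i j).re, hre i j⟩),
      ((a.mat i j).im, ⟨fun p => ((b p).mat i j).im, him i j⟩)⟩
  have hM1 : mapM infAQ M = a.mat := rfl
  have hM2 : ∀ p, mapM (evp p) M = (b p).mat := fun p => rfl
  have hM : Mᴴ * J7 (E7 AQ) * M = J7 (E7 AQ) := by
    refine M7_ext' ?_ fun p => ?_
    · rw [mapM_form, hM1, a.star_mul_mat, mapM_J]
    · rw [mapM_form, hM2, (b p).star_mul_mat, mapM_J]
  exact ⟨⟨M, hM⟩, U7.ext hM1, fun p => U7.ext (hM2 p)⟩

private theorem one_mem_KZ (p : Nat.Primes) : (1 : U7 ℚ_[p]) ∈ KZ p := by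
  intro i j
  rw [U7.mat_one]
  by_cases h : i = j
  · subst h
    rw [Matrix.one_apply_eq]
    refine ⟨?_, ?_⟩
    · rw [QuadraticAlgebra.re_one]
      exact norm_one.le
    · rw [QuadraticAlgebra.im_one, norm_zero]
      exact zero_le_one
  · rw [Matrix.one_apply_ne h]
    refine ⟨?_, ?_⟩
    · rw [QuadraticAlgebra.re_zero, norm_zero]
      exact zero_le_one
    · rw [QuadraticAlgebra.im_zero, norm_zero]
      exact zero_le_one

/-- The embedding of the real group: the components are `g` at infinity and `1` at the primes. -/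
theorem exists_embInf : ∃ f : U7 ℝ →* U7 AQ,
    (∀ g, U7.map infAQ (f g) = g) ∧ ∀ g p, U7.map (evp p) (f g) = 1 := by
  choose f hf1 hf2 using fun g : U7 ℝ => exists_comp g (fun p => 1)
    (Filter.Eventually.of_forall one_mem_KZ)
  refine ⟨⟨⟨f, ?_⟩, ?_⟩, hf1, hf2⟩
  · refine U7.ext_comp ?_ fun p => ?_
    · rw [hf1, map_one]
    · rw [hf2, map_one]
  · intro g h
    refine U7.ext_comp ?_ fun p => ?_
    · show U7.map infAQ (f (g * h)) = U7.map infAQ (f g * f h)
      rw [map_mul, hf1, hf1, hf1]
    · show U7.map (evp p) (f (g * h)) = U7.map (evp p) (f g * f h)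
      rw [map_mul, hf2, hf2, hf2, mul_one]

/-- The embedding of the group at a prime. -/
theorem exists_embp (p : Nat.Primes) : ∃ f : U7 ℚ_[p] →* U7 AQ,
    (∀ g, U7.map infAQ (f g) = 1) ∧ (∀ g, U7.map (evp p) (f g) = g) ∧
    ∀ g q, q ≠ p → U7.map (evp q) (f g) = 1 := by
  classical
  have hev : ∀ g : U7 ℚ_[p], ∀ᶠ q in Filter.cofinite,
      (Pi.mulSingle p g : ∀ q : Nat.Primes, U7 ℚ_[q]) q ∈ KZ q := by
    intro g
    rw [Filter.eventually_cofinite]
    refine (Set.finite_singleton p).subset fun q hq => ?_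
    by_contra hqp
    apply hq
    rw [Pi.mulSingle_eq_of_ne hqp]
    exact one_mem_KZ q
  choose f hf1 hf2 using fun g : U7 ℚ_[p] => exists_comp 1 (Pi.mulSingle p g) (hev g)
  have hp : ∀ g, U7.map (evp p) (f g) = g := fun g => by rw [hf2, Pi.mulSingle_eq_same]
  have hq : ∀ g q, q ≠ p → U7.map (evp q) (f g) = 1 := fun g q h => by
    rw [hf2, Pi.mulSingle_eq_of_ne h]
  refine ⟨⟨⟨f, ?_⟩, ?_⟩, hf1, hp, hq⟩
  · refine U7.ext_comp ?_ fun q => ?_
    · rw [hf1, map_one]
    · by_cases h : q = p
      · subst h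
        rw [hp, map_one]
      · rw [hq _ _ h, map_one]
  · intro g h
    refine U7.ext_comp ?_ fun q => ?_
    · show U7.map infAQ (f (g * h)) = U7.map infAQ (f g * f h)
      rw [map_mul, hf1, hf1, hf1, mul_one]
    · show U7.map (evp q) (f (g * h)) = U7.map (evp q) (f g * f h)
      by_cases hqp : q = p
      · subst hqp
        rw [map_mul, hp, hp, hp]
      · rw [map_mul, hq _ _ hqp, hq _ _ hqp, hq _ _ hqp, mul_one]

theorem map_tr {R S : Type} [CommRing R] [CommRing S] (f : R →+* S) (g : U7 R) :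
    U7.map f g.tr = (U7.map f g).tr := by
  refine U7.ext ?_
  rw [U7.mat_tr, U7.mat_map, U7.mat_map, U7.mat_tr, Matrix.transpose_map]

private theorem one_tr {R : Type} [CommRing R] : (1 : U7 R).tr = 1 := by
  refine U7.ext ?_
  rw [U7.mat_tr, U7.mat_one, Matrix.transpose_one]

/-- A homomorphism which is compatible with the transposition and trivial on the elements which are
trivial at infinity and integral at all primes is trivial: every `g` is the product of an element
of the real group, such an integral element and elements of the groups at the finitely many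
primes where `g` is not integral; `D_trivial`. -/
theorem D_adelic (D : U7 AQ →* ℝ≥0) (hD : ∀ g, D g.tr * D g = 1)
    (hK : ∀ k : U7 AQ, U7.map infAQ k = 1 → (∀ p, U7.map (evp p) k ∈ KZ p) → D k = 1)
    (g : U7 AQ) : D g = 1 := by
  classical
  obtain ⟨fi, hi1, hi2⟩ := exists_embInf
  choose fp hp1 hp2 hp3 using exists_embp
  -- the homomorphism is trivial on the local groups
  have hDi : ∀ x, D (fi x) = 1 := by
    refine fun x => D_trivial (D.comp fi) (fun y => ?_) x
    have h1 : fi y.tr = (fi y).tr := by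
      refine U7.ext_comp ?_ fun p => ?_
      · rw [hi1, map_tr, hi1]
      · rw [hi2, map_tr, hi2, one_tr]
    show D (fi y.tr) * D (fi y) = 1
    rw [h1]
    exact hD _
  have hDp : ∀ p x, D (fp p x) = 1 := by
    refine fun p x => D_trivial (D.comp (fp p)) (fun y => ?_) x
    have h1 : fp p y.tr = (fp p y).tr := by
      refine U7.ext_comp ?_ fun q => ?_
      · rw [hp1, map_tr, hp1, one_tr]
      · by_cases h : q = p
        · subst h
          rw [hp2, map_tr, hp2]
        · rw [hp3 _ _ _ h, map_tr, hp3 _ _ _ h, one_tr]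
    show D (fp p y.tr) * D (fp p y) = 1
    rw [h1]
    exact hD _
  -- induction on the set of primes
  have key : ∀ (S : Finset Nat.Primes) (x : U7 AQ), (∀ p, p ∉ S → U7.map (evp p) x ∈ KZ p) →
      D x = 1 := by
    intro S
    induction S using Finset.induction_on with
    | empty =>
      intro x hx
      have h1 : D ((fi (U7.map infAQ x))⁻¹ * x) = 1 := by
        refine hK _ ?_ fun p => ?_
        · rw [map_mul, map_inv, hi1, inv_mul_cancel]
        · rw [map_mul, map_inv, hi2, inv_one, one_mul]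
          exact hx p (Finset.notMem_empty p)
      have h2 : x = fi (U7.map infAQ x) * ((fi (U7.map infAQ x))⁻¹ * x) := by
        rw [mul_inv_cancel_left]
      rw [h2, map_mul, hDi, h1, one_mul]
    | insert p S hpS ih =>
      intro x hx
      have h1 : D ((fp p (U7.map (evp p) x))⁻¹ * x) = 1 := by
        refine ih _ fun q hq => ?_
        rw [map_mul, map_inv]
        by_cases h : q = p
        · subst h
          rw [hp2, inv_mul_cancel]
          exact one_mem_KZ q
        · rw [hp3 _ _ _ h, inv_one, one_mul]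
          exact hx q fun h' => (Finset.mem_insert.1 h').elim h hq
      have h2 : x = fp p (U7.map (evp p) x) * ((fp p (U7.map (evp p) x))⁻¹ * x) := by
        rw [mul_inv_cancel_left]
      rw [h2, map_mul, hDp, h1, one_mul]
  have hfin : ∀ᶠ p in Filter.cofinite, U7.map (evp p) g ∈ KZ p := by
    have h1 : ∀ i j, ∀ᶠ p : Nat.Primes in Filter.cofinite,
        ‖((U7.map (evp p) g).mat i j).re‖ ≤ 1 ∧ ‖((U7.map (evp p) g).mat i j).im‖ ≤ 1 :=
      fun i j => ((g.mat i j).re.2.2).and ((g.mat i j).im.2.2)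
    exact (Filter.eventually_all.2 fun i => Filter.eventually_all.2 fun j => h1 i j)
  rw [Filter.eventually_cofinite] at hfin
  refine key hfin.toFinset g fun p hp => ?_
  by_contra h
  exact hp (hfin.mem_toFinset.2 h)

end Pool.Agent.MPabcfcd
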