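import Pool.Agent.Lib.MP_abcfcd_nt.Q.Move

/-!
# Characters which are compatible with the transposition are trivial
-/

set_option autoImplicit false

open Matrix Topology
open scoped NNReal

namespace Pool.Agent.MPabcfcd

variable {R : Type} [Field R] [CharZero R]

private theorem gen_sq {x : ℝ≥0} (h : x * x = 1) : x = 1 := by
  have h1 : (x : ℝ) * x = 1 := by exact_mod_cast h
  have h2 : (0 : ℝ) ≤ x := x.2
  have h3 : (x : ℝ) = 1 := by nlinarith
  exact_mod_cast h3

/-- The transpose of a quasi-reflection is conjugate to it by `qrM_transpose`, `hf_J_star`,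
`exists_conj` and `qrM_conj`. -/
theorem D_qr (D : U7 R →* ℝ≥0) (hD : ∀ g, D g.tr * D g = 1) (v : Fin 7 → E7 R) (c : E7 R)
    (hv : hf v v ≠ 0) (hc : c * star c = 1) : D (qr v c hv hc) = 1 := by
  obtain ⟨k, hk⟩ := exists_conj v (J7 (E7 R) *ᵥ star v) (hf_J_star v).symm hv
  have h1 : (qr v c hv hc).tr = k * qr v c hv hc * k⁻¹ := by
    refine U7.ext ?_
    rw [U7.mat_tr, U7.mat_mul, U7.mat_mul]
    change (qrM v c)ᵀ = k.mat * qrM v c * (k⁻¹).mat
    rw [qrM_transpose, qrM_conj, hk]
  have h2 := hD (qr v c hv hc)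
  have h3 : D k * D k⁻¹ = 1 := by rw [← map_mul, mul_inv_cancel, map_one]
  have h4 : D (k * qr v c hv hc * k⁻¹) = D (qr v c hv hc) := by
    rw [map_mul, map_mul, mul_comm (D k), mul_assoc, h3, mul_one]
  rw [h1, h4] at h2
  exact gen_sq h2

/-- An orthogonal basis: `e_j + e_(6 - j)` and `e_j - e_(6 - j)` for `j < 3`, and `e_3`. -/
def ob (R : Type) [CommRing R] (i : Fin 7) : Fin 7 → E7 R :=
  if i.val < 3 then Pi.single i 1 + Pi.single i.rev 1
  else if i.val = 3 then Pi.single i 1
  else Pi.single i.rev 1 - Pi.single i 1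

/-- the integral coordinates of the basis -/
private def obZ (i k : Fin 7) : ℤ :=
  if i.val < 3 then (if k = i then 1 else 0) + (if k = i.rev then 1 else 0)
  else if i.val = 3 then (if k = i then 1 else 0)
  else (if k = i.rev then 1 else 0) - (if k = i then 1 else 0)

omit [CharZero R] in
private theorem ob_eq (i k : Fin 7) : ob R i k = ((obZ i k : ℤ) : E7 R) := by
  have hs : ∀ a : Fin 7, (Pi.single a 1 : Fin 7 → E7 R) k =
      (((if k = a then 1 else 0 : ℤ)) : E7 R) := by
    intro a
    rw [Pi.single_apply]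
    split_ifs
    · rw [Int.cast_one]
    · rw [Int.cast_zero]
  unfold ob obZ
  by_cases h1 : i.val < 3
  · rw [if_pos h1, if_pos h1, Pi.add_apply, hs, hs, Int.cast_add]
  · rw [if_neg h1, if_neg h1]
    by_cases h2 : i.val = 3
    · rw [if_pos h2, if_pos h2, hs]
    · rw [if_neg h2, if_neg h2, Pi.sub_apply, hs, hs, Int.cast_sub]

omit [CharZero R] in
private theorem hf_sum (x y : Fin 7 → E7 R) : hf x y = ∑ k, star (x k) * y k.rev := by
  unfold hf
  rw [dotProduct]
  refine Finset.sum_congr rfl fun k _ => ?_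
  rw [Pi.star_apply]
  congr 1
  rw [mulVec, dotProduct, Finset.sum_eq_single k.rev]
  · simp [J7]
  · intro b _ hb
    simp [J7, hb]
  · intro h
    exact absurd (Finset.mem_univ _) h

private theorem hf_ob (i j : Fin 7) :
    hf (ob R i) (ob R j) = ((∑ k, obZ i k * obZ j k.rev : ℤ) : E7 R) := by
  rw [hf_sum, Int.cast_sum]
  refine Finset.sum_congr rfl fun k _ => ?_
  rw [ob_eq, ob_eq, star_intCast, Int.cast_mul]

private theorem obZ_ne : ∀ i : Fin 7, ∑ k, obZ i k * obZ i k.rev ≠ 0 := by decide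

private theorem obZ_orth : ∀ i j : Fin 7, i ≠ j → ∑ k, obZ i k * obZ j k.rev = 0 := by decide

private theorem obZ_single : ∀ i k : Fin 7, (if i.val ≤ 3 then obZ i k + obZ i.rev k
    else obZ i.rev k - obZ i k) = if k = i then 2 else 0 := by decide

theorem hf_ob_ne (i : Fin 7) : hf (ob R i) (ob R i) ≠ 0 := by
  rw [hf_ob]
  intro h
  have h1 := congrArg QuadraticAlgebra.re h
  rw [QuadraticAlgebra.re_intCast, QuadraticAlgebra.re_zero, Int.cast_eq_zero] at h1
  exact obZ_ne i h1

theorem hf_ob_orth {i j : Fin 7} (h : i ≠ j) : hf (ob R i) (ob R j) = 0 := by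
  rw [hf_ob, obZ_orth i j h, Int.cast_zero]

private theorem gen_two {x y : E7 R} (h : x + x = y + y) : x = y := by
  have h1 := congrArg QuadraticAlgebra.re h
  have h2 := congrArg QuadraticAlgebra.im h
  rw [QuadraticAlgebra.re_add, QuadraticAlgebra.re_add] at h1
  rw [QuadraticAlgebra.im_add, QuadraticAlgebra.im_add] at h2
  ext
  · linear_combination (1 / 2 : R) * h1
  · linear_combination (1 / 2 : R) * h2

theorem eq_one_of_fix_ob (g : U7 R) (h : ∀ i, g.mat *ᵥ ob R i = ob R i) : g = 1 := by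
  have h1 : ∀ i : Fin 7, g.mat *ᵥ (Pi.single i 1 + Pi.single i 1 : Fin 7 → E7 R) =
      Pi.single i 1 + Pi.single i 1 := by
    intro i
    have h2 : (Pi.single i 1 + Pi.single i 1 : Fin 7 → E7 R) =
        if i.val ≤ 3 then ob R i + ob R i.rev else ob R i.rev - ob R i := by
      funext k
      have h3 := congrArg (fun z : ℤ => (z : E7 R)) (obZ_single i k)
      beta_reduce at h3
      by_cases hi : i.val ≤ 3
      · rw [if_pos hi] at h3 ⊢
        rw [Pi.add_apply, Pi.add_apply, ob_eq, ob_eq, ← Int.cast_add, h3, Pi.single_apply]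
        split_ifs
        · norm_num
        · norm_num
      · rw [if_neg hi] at h3 ⊢
        rw [Pi.add_apply, Pi.sub_apply, ob_eq, ob_eq, ← Int.cast_sub, h3, Pi.single_apply]
        split_ifs
        · norm_num
        · norm_num
    rw [h2]
    split_ifs
    · rw [mulVec_add, h, h]
    · rw [mulVec_sub, h, h]
  refine U7.ext ?_
  rw [U7.mat_one]
  refine Matrix.ext fun k i => ?_
  have h2 := congrFun (h1 i) k
  rw [mulVec_add, mulVec_single_one, Pi.add_apply, Pi.add_apply] at h2
  have h3 := gen_two h2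
  rw [Matrix.one_apply]
  rw [Pi.single_apply] at h3
  exact h3

private theorem hf_sub_left (x y z : Fin 7 → E7 R) : hf (x - y) z = hf x z - hf y z := by
  rw [hf_sum, hf_sum, hf_sum, ← Finset.sum_sub_distrib]
  refine Finset.sum_congr rfl fun k _ => ?_
  rw [Pi.sub_apply, star_sub, sub_mul]

private theorem hf_smul_left (e : E7 R) (x z : Fin 7 → E7 R) :
    hf (e • x) z = star e * hf x z := by
  rw [hf_sum, hf_sum, Finset.mul_sum]
  refine Finset.sum_congr rfl fun k _ => ?_
  rw [Pi.smul_apply, smul_eq_mul, star_mul']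
  ring

private theorem gen_ind (D : U7 R →* ℝ≥0) (hD : ∀ g, D g.tr * D g = 1) (m : ℕ) (hm : m ≤ 7) :
    ∀ g : U7 R, (∀ j : Fin 7, j.val < 7 - m → g.mat *ᵥ ob R j = ob R j) → D g = 1 := by
  induction m with
  | zero =>
    intro g hg
    rw [eq_one_of_fix_ob g fun i => hg i (by omega), map_one]
  | succ m ih =>
    intro g hg
    obtain ⟨i, hi⟩ : ∃ i : Fin 7, i.val = 6 - m := ⟨⟨6 - m, by omega⟩, rfl⟩
    obtain ⟨v, hvd⟩ : ∃ v, v = g.mat *ᵥ ob R i := ⟨_, rfl⟩
    have hvv : hf v v = hf (ob R i) (ob R i) := by rw [hvd, hf_mulVec]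
    have hvn : hf v v ≠ 0 := by rw [hvv]; exact hf_ob_ne i
    obtain ⟨e, c, he, hc, hu, hmv⟩ := exists_move v (ob R i) hvv hvn
    have h1 := ih (by omega) (qr (ob R i - e • v) c hu hc * (qr v e hvn he * g)) (by
      intro j hj
      rw [U7.mat_mul, U7.mat_mul, ← mulVec_mulVec, ← mulVec_mulVec]
      change qrM (ob R i - e • v) c *ᵥ (qrM v e *ᵥ (g.mat *ᵥ ob R j)) = ob R j
      by_cases hji : j = i
      · subst hji
        rw [← hvd, qrM_self hvn, hmv]
      · have hjlt : j.val < 7 - (m + 1) := by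
          have : j.val ≠ i.val := fun h => hji (Fin.ext h)
          omega
        have hvj : hf v (ob R j) = 0 := by
          rw [hvd]
          conv_lhs => rw [← hg j hjlt]
          rw [hf_mulVec]
          exact hf_ob_orth fun h => hji h.symm
        rw [hg j hjlt, qrM_orth hvj, qrM_orth]
        rw [hf_sub_left, hf_smul_left, hvj, hf_ob_orth fun h => hji h.symm, mul_zero, sub_zero])
    rw [map_mul, map_mul, D_qr D hD, D_qr D hD, one_mul, one_mul] at h1
    exact h1

/-- By induction on `7 - i`: if `g` fixes `ob 0, ..., ob (i - 1)` then `D g = 1`. Take `e`, `c` from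
`exists_move` for `v = g (ob i)` and `w = ob i`; both quasi-reflections, for `v` and `e`, and for
`w - e v` and `c`, fix `ob 0, ..., ob (i - 1)`, and their product maps `g (ob i)` to `ob i`. -/
theorem D_trivial (D : U7 R →* ℝ≥0) (hD : ∀ g, D g.tr * D g = 1) (g : U7 R) : D g = 1 :=
  gen_ind D hD 7 le_rfl g fun j hj => absurd hj (by omega)

end Pool.Agent.MPabcfcd
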