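import Pool.Agent.Lib.MP_abcfcd_nt.Q.Qr

/-!
# Moving vectors by quasi-reflections
-/

set_option autoImplicit false

open Matrix Topology

namespace Pool.Agent.MPabcfcd

variable {R : Type} [Field R] [CharZero R]

private theorem mv_alt {x m : R} (h1 : 2 * x = 2 ∨ 2 * x = m) (h2 : -(2 * x) = 2 ∨ -(2 * x) = m) :
    (m = 0 ∧ x = 0) ∨ (m = -2 ∧ x ^ 2 = 1) := by
  rcases h1 with h1 | h1 <;> rcases h2 with h2 | h2
  · exfalso
    have h3 : (4 : R) = 0 := by linear_combination -h1 - h2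
    norm_num at h3
  · right
    have hx : x = 1 := by linear_combination (1 / 2 : R) * h1
    refine ⟨by linear_combination -h2 - h1, by rw [hx]; ring⟩
  · right
    have hx : x = -1 := by linear_combination (-1 / 2 : R) * h2
    refine ⟨by linear_combination -h1 - h2, by rw [hx]; ring⟩
  · left
    have hm : m = 0 := by linear_combination (-1 / 2 : R) * h1 - (1 / 2 : R) * h2
    refine ⟨hm, ?_⟩
    linear_combination (1 / 2 : R) * h1 + (1 / 2 : R) * hm

/-- If all four numbers `t ∈ {2 x, -2 x, (3 x + 7 y) / 2, -(3 x + 7 y) / 2}` were equal to `2` or to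
`m = 1 + x ^ 2 + 7 y ^ 2`, then either `m = x = y = 0`, or `m = -2`, `x = ± 1` and `y` is one of
`± 1`, `± 1 / 7`, and both are impossible. -/
theorem exists_good (x y : R) : ∃ a b : R, a ^ 2 + 7 * b ^ 2 = 1 ∧
    2 * (a * x + 7 * b * y) ≠ 2 ∧ 2 * (a * x + 7 * b * y) ≠ 1 + x ^ 2 + 7 * y ^ 2 := by
  by_contra hcon
  push Not at hcon
  have key : ∀ a b : R, a ^ 2 + 7 * b ^ 2 = 1 → 2 * (a * x + 7 * b * y) = 2 ∨
      2 * (a * x + 7 * b * y) = 1 + x ^ 2 + 7 * y ^ 2 := by
    intro a b h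
    by_cases h2 : 2 * (a * x + 7 * b * y) = 2
    · exact Or.inl h2
    · exact Or.inr (hcon a b h h2)
  obtain ⟨m, hm⟩ : ∃ m : R, m = 1 + x ^ 2 + 7 * y ^ 2 := ⟨_, rfl⟩
  rw [← hm] at key
  have k1 := key 1 0 (by ring)
  have k2 := key (-1) 0 (by ring)
  have k3 := key (3 / 4) (1 / 4) (by norm_num)
  have k4 := key (-(3 / 4)) (-(1 / 4)) (by norm_num)
  have e1 : 2 * ((1 : R) * x + 7 * 0 * y) = 2 * x := by ring
  have e2 : 2 * ((-1 : R) * x + 7 * 0 * y) = -(2 * x) := by ring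
  have e3 : 2 * ((3 / 4 : R) * x + 7 * (1 / 4) * y) = 2 * (3 / 4 * x + 7 / 4 * y) := by ring
  have e4 : 2 * (-(3 / 4 : R) * x + 7 * (-(1 / 4)) * y) = -(2 * (3 / 4 * x + 7 / 4 * y)) := by
    ring
  rw [e1] at k1
  rw [e2] at k2
  rw [e3] at k3
  rw [e4] at k4
  rcases mv_alt k1 k2 with ⟨m0, x0⟩ | ⟨m0, x0⟩
  · rcases mv_alt k3 k4 with ⟨_, s0⟩ | ⟨m1, _⟩
    · have hy : y = 0 := by
        rw [x0] at s0
        linear_combination (4 / 7 : R) * s0
      rw [m0, x0, hy] at hm
      have h3 : (1 : R) = 0 := by linear_combination -hm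
      exact one_ne_zero h3
    · rw [m0] at m1
      have h3 : (2 : R) = 0 := by linear_combination m1
      norm_num at h3
  · rcases mv_alt k3 k4 with ⟨m1, _⟩ | ⟨_, s0⟩
    · rw [m0] at m1
      have h3 : (2 : R) = 0 := by linear_combination -m1
      norm_num at h3
    · have h7 : 7 * y ^ 2 = -4 := by
        rw [m0] at hm
        linear_combination -hm - x0
      have hxy : 6 * (x * y) = 5 := by
        linear_combination (16 / 7 : R) * s0 - (9 / 7 : R) * x0 - h7
      have h36 : 36 * y ^ 2 = 25 := by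
        linear_combination (6 * (x * y) + 5) * hxy - 36 * y ^ 2 * x0
      have h3 : (319 : R) = 0 := by
        linear_combination (36 : R) * h7 - 7 * h36
      norm_num at h3

section

variable {R : Type} [CommRing R]

private theorem mv_sub_left (a b c : Fin 7 → E7 R) : hf (a - b) c = hf a c - hf b c := by
  unfold hf
  rw [star_sub, sub_dotProduct]

private theorem mv_sub_right (a b c : Fin 7 → E7 R) : hf a (b - c) = hf a b - hf a c := by
  unfold hf
  rw [mulVec_sub, dotProduct_sub]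

private theorem mv_smul_left (e : E7 R) (a b : Fin 7 → E7 R) : hf (e • a) b = star e * hf a b := by
  unfold hf
  rw [star_smul, smul_dotProduct, smul_eq_mul]

private theorem mv_smul_right (e : E7 R) (a b : Fin 7 → E7 R) : hf a (e • b) = e * hf a b := by
  unfold hf
  rw [mulVec_smul, dotProduct_smul, smul_eq_mul]

/-- scalars -/
private def mvS (e : E7 R) (he : e * star e = 1) : U7 R := ⟨e • 1, by
  have h1 : star e * e = 1 := by rw [mul_comm]; exact he
  rw [conjTranspose_smul, conjTranspose_one, smul_mul_assoc, Matrix.one_mul, smul_mul_assoc,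
    mul_smul_comm, Matrix.mul_one, smul_smul, h1, one_smul]⟩

private theorem mvS_mat (e : E7 R) (he : e * star e = 1) : (mvS e he).mat = e • 1 := rfl

end

/-- Put `n = h(v, v)`, `c₀ = h(v, w) / n = x + y √-7` and `e = a + b √-7` with `exists_good`. Then
`Tr (star e * c₀) = 2 (a x + 7 b y)`, so `u = w - e v` has `h(u, u) = n (2 - Tr (star e * c₀)) ≠ 0`
and `z = h(e v, u) = n (star e * c₀ - 1)` has norm
`n ^ 2 (1 + N c₀ - Tr (star e * c₀)) ≠ 0`. Since `z + star z = - h(u, u)`, the quasi-reflection for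
`u` and `c = - z / star z` maps `e v` to `e v + u = w`. -/
theorem exists_move (v w : Fin 7 → E7 R) (h : hf v v = hf w w) (hn : hf v v ≠ 0) :
    ∃ e c : E7 R, e * star e = 1 ∧ c * star c = 1 ∧ hf (w - e • v) (w - e • v) ≠ 0 ∧
      qrM (w - e • v) c *ᵥ (e • v) = w := by
  obtain ⟨n, hn'⟩ : ∃ n : R, n = (hf v v).re := ⟨_, rfl⟩
  have hvv : hf v v = ⟨n, 0⟩ := by rw [hn']; exact hf_self v
  have hww : hf w w = ⟨n, 0⟩ := by rw [← h]; exact hvv
  have hn0 : n ≠ 0 := by
    intro h0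
    refine hn ?_
    rw [hvv, h0]
    rfl
  obtain ⟨x, hx⟩ : ∃ x : R, x = n⁻¹ * (hf v w).re := ⟨_, rfl⟩
  obtain ⟨y, hy⟩ : ∃ y : R, y = n⁻¹ * (hf v w).im := ⟨_, rfl⟩
  have hvw : hf v w = ⟨n * x, n * y⟩ := by
    ext
    · rw [hx, mul_inv_cancel_left₀ hn0]
    · rw [hy, mul_inv_cancel_left₀ hn0]
  have hwv : hf w v = ⟨n * x, -(n * y)⟩ := by
    rw [← star_hf, hvw]
    ext
    · simp
    · simp
  obtain ⟨a, b, hab, h2, hm⟩ := exists_good x y
  set e : E7 R := ⟨a, b⟩ with he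
  have hse : star e = ⟨a, -b⟩ := by
    rw [he]
    ext
    · simp
    · simp
  have hee : e * star e = 1 := by
    rw [hse, he]
    ext
    · simp only [QuadraticAlgebra.re_mul, QuadraticAlgebra.re_one]
      linear_combination hab
    · simp only [QuadraticAlgebra.im_mul, QuadraticAlgebra.im_one]
      ring
  obtain ⟨T, hT⟩ : ∃ T : R, T = 2 * (a * x + 7 * b * y) := ⟨_, rfl⟩
  rw [← hT] at h2 hm
  have huu : hf (w - e • v) (w - e • v) = ⟨n * (2 - T), 0⟩ := by
    rw [mv_sub_left, mv_sub_right, mv_sub_right, mv_smul_left, mv_smul_left, mv_smul_right,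
      mv_smul_right, hvv, hww, hvw, hwv, hse, he, hT]
    ext
    · simp only [QuadraticAlgebra.re_sub, QuadraticAlgebra.re_mul, QuadraticAlgebra.im_mul]
      linear_combination n * hab
    · simp only [QuadraticAlgebra.im_sub, QuadraticAlgebra.re_mul, QuadraticAlgebra.im_mul]
      ring
  have huu0 : n * (2 - T) ≠ 0 := mul_ne_zero hn0 (sub_ne_zero.2 (Ne.symm h2))
  -- `star z`, where `z = h(e v, u)`
  have huv : hf (w - e • v) (e • v) =
      ⟨n * (a * x + 7 * b * y - 1), -(n * (a * y - b * x))⟩ := by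
    rw [mv_sub_left, mv_smul_left, mv_smul_right, mv_smul_right, hvv, hwv, hse, he]
    ext
    · simp only [QuadraticAlgebra.re_sub, QuadraticAlgebra.re_mul, QuadraticAlgebra.im_mul]
      linear_combination -n * hab
    · simp only [QuadraticAlgebra.im_sub, QuadraticAlgebra.re_mul, QuadraticAlgebra.im_mul]
      ring
  obtain ⟨p, hp⟩ : ∃ p : R, p = a * x + 7 * b * y - 1 := ⟨_, rfl⟩
  obtain ⟨q, hq⟩ : ∃ q : R, q = a * y - b * x := ⟨_, rfl⟩
  have hN : p ^ 2 + 7 * q ^ 2 = 1 + x ^ 2 + 7 * y ^ 2 - T := by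
    rw [hp, hq, hT]
    linear_combination (x ^ 2 + 7 * y ^ 2) * hab
  have hN0 : p ^ 2 + 7 * q ^ 2 ≠ 0 := by
    rw [hN]
    exact sub_ne_zero.2 (Ne.symm hm)
  obtain ⟨N, hNd⟩ : ∃ N : R, N = p ^ 2 + 7 * q ^ 2 := ⟨_, rfl⟩
  rw [← hNd] at hN0
  have hT2 : 2 - T = -2 * p := by
    rw [hp, hT]
    ring
  refine ⟨e, ⟨-(p ^ 2 - 7 * q ^ 2) * N⁻¹, -(2 * p * q) * N⁻¹⟩, hee, ?_, ?_, ?_⟩
  · ext
    · simp only [QuadraticAlgebra.re_mul, QuadraticAlgebra.re_star, QuadraticAlgebra.im_star,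
        QuadraticAlgebra.re_one]
      field_simp
      rw [hNd]
      ring
    · simp only [QuadraticAlgebra.im_mul, QuadraticAlgebra.re_star, QuadraticAlgebra.im_star,
        QuadraticAlgebra.im_one]
      ring
  · rw [huu]
    intro h0
    exact huu0 (congrArg QuadraticAlgebra.re h0)
  · rw [qrM_mulVec, huu, huv, ← hp, ← hq]
    have hcoef : ((⟨-(p ^ 2 - 7 * q ^ 2) * N⁻¹, -(2 * p * q) * N⁻¹⟩ : E7 R) - 1) *
        ⟨(n * (2 - T))⁻¹, 0⟩ * ⟨n * p, -(n * q)⟩ = 1 := by
      have hp0 : p ≠ 0 := by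
        intro h0
        rw [hT2, h0] at huu0
        exact huu0 (by ring)
      rw [hT2]
      ext
      · simp only [QuadraticAlgebra.re_mul, QuadraticAlgebra.im_mul, QuadraticAlgebra.re_sub,
          QuadraticAlgebra.im_sub, QuadraticAlgebra.re_one, QuadraticAlgebra.im_one]
        field_simp
        rw [hNd]
        ring
      · simp only [QuadraticAlgebra.re_mul, QuadraticAlgebra.im_mul, QuadraticAlgebra.re_sub,
          QuadraticAlgebra.im_sub, QuadraticAlgebra.re_one, QuadraticAlgebra.im_one]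
        field_simp
        rw [hNd]
        ring
    rw [hcoef, one_smul, add_sub_cancel]

/-- Two vectors of the same nonzero norm are conjugate. -/
theorem exists_conj (v w : Fin 7 → E7 R) (h : hf v v = hf w w) (hn : hf v v ≠ 0) :
    ∃ k : U7 R, k.mat *ᵥ v = w := by
  obtain ⟨e, c, he, hc, hu, hm⟩ := exists_move v w h hn
  refine ⟨qr (w - e • v) c hu hc * mvS e he, ?_⟩
  rw [U7.mat_mul, mvS_mat, ← mulVec_mulVec, smul_mulVec, one_mulVec]
  exact hm

end Pool.Agent.MPabcfcd
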