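import Pool.Agent.Lib.MP_abcfcd_nt.S.Tau

/-!
# Quasi-reflections and the transposition
-/

set_option autoImplicit false

open Matrix Topology

namespace Pool.Agent.MPabcfcd

private theorem qr_J_transpose (R : Type) [CommRing R] : (J7 R)ᵀ = J7 R := by
  refine Matrix.ext fun i j => ?_
  simp only [Matrix.transpose_apply, J7, Matrix.of_apply]
  by_cases h : j = i.rev
  · subst h
    simp
  · have h' : ¬ i = j.rev := fun h' => h (by rw [h', Fin.rev_rev])
    simp [h, h']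

/-- The transposition is an anti-automorphism of the unitary group since `J7` is real and
symmetric. -/
def U7.tr {R : Type} [CommRing R] (g : U7 R) : U7 R := ⟨g.matᵀ, by
  have h : g.mat * J7 (E7 R) * g.matᴴ = J7 (E7 R) := by
    have h1 := g.mul_inv_aux
    have h2 := congrArg (fun M => M * J7 (E7 R)) h1
    simp only [Matrix.mul_assoc, J7_sq, Matrix.mul_one, Matrix.one_mul] at h2
    rw [Matrix.mul_assoc]
    exact h2
  have h3 : (g.matᵀ)ᴴ = (g.matᴴ)ᵀ := rfl
  have h4 := congrArg Matrix.transpose h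
  rw [Matrix.transpose_mul, Matrix.transpose_mul, qr_J_transpose] at h4
  rw [h3, Matrix.mul_assoc]
  exact h4⟩

theorem U7.mat_tr {R : Type} [CommRing R] (g : U7 R) : g.tr.mat = g.matᵀ := rfl

theorem U7.tr_mul {R : Type} [CommRing R] (g h : U7 R) : (g * h).tr = h.tr * g.tr :=
  U7.ext (Matrix.transpose_mul _ _)

theorem U7.tr_tr {R : Type} [CommRing R] (g : U7 R) : g.tr.tr = g :=
  U7.ext (Matrix.transpose_transpose _)

theorem hf_mulVec {R : Type} [CommRing R] (g : U7 R) (x y : Fin 7 → E7 R) :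
    hf (g.mat *ᵥ x) (g.mat *ᵥ y) = hf x y := by
  unfold hf
  rw [star_mulVec, ← dotProduct_mulVec, mulVec_mulVec, mulVec_mulVec, g.star_mul_mat]

theorem star_hf {R : Type} [CommRing R] (x y : Fin 7 → E7 R) : star (hf x y) = hf y x := by
  unfold hf
  rw [← star_dotProduct, star_mulVec, J7_star, ← dotProduct_mulVec]

variable {R : Type} [Field R] [CharZero R]

theorem hf_self (v : Fin 7 → E7 R) : hf v v = ⟨(hf v v).re, 0⟩ := by
  have h := congrArg QuadraticAlgebra.im (star_hf v v)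
  rw [QuadraticAlgebra.im_star] at h
  have h2 : (hf v v).im = 0 := by
    have h3 : 2 * (hf v v).im = 0 := by linear_combination -h
    rcases mul_eq_zero.1 h3 with h4 | h4
    · exact absurd h4 two_ne_zero
    · exact h4
  ext
  · rfl
  · exact h2

private theorem qr_re_ne {v : Fin 7 → E7 R} (hv : hf v v ≠ 0) : (hf v v).re ≠ 0 := by
  intro h
  apply hv
  rw [hf_self v, h]
  rfl

private theorem qr_inv_mul {v : Fin 7 → E7 R} (hv : hf v v ≠ 0) :
    (⟨(hf v v).re⁻¹, 0⟩ : E7 R) * hf v v = 1 := by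
  have h := qr_re_ne hv
  rw [hf_self v]
  ext
  · simp only [QuadraticAlgebra.re_mul, QuadraticAlgebra.re_one]
    rw [inv_mul_cancel₀ h]
    ring
  · simp only [QuadraticAlgebra.im_mul, QuadraticAlgebra.im_one]
    ring

private theorem qr_star_inv (v : Fin 7 → E7 R) :
    star (⟨(hf v v).re⁻¹, 0⟩ : E7 R) = ⟨(hf v v).re⁻¹, 0⟩ := by
  ext
  · simp only [QuadraticAlgebra.re_star]
    ring
  · simp only [QuadraticAlgebra.im_star, neg_zero]

private theorem qr_vJv (a b c d : Fin 7 → E7 R) :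
    vecMulVec a (star b) * (J7 (E7 R) * vecMulVec c (star d)) =
      hf b c • vecMulVec a (star d) := by
  rw [mul_vecMulVec, vecMulVec_mul_vecMulVec, vecMulVec_smul]
  rfl

/-- The quasi-reflection `x ↦ x + (c - 1) h(v, x) / h(v, v) v`. -/
noncomputable def qrM (v : Fin 7 → E7 R) (c : E7 R) : M7 (E7 R) :=
  1 + ((c - 1) * ⟨(hf v v).re⁻¹, 0⟩) • (vecMulVec v (star v) * J7 (E7 R))

theorem qrM_unitary {v : Fin 7 → E7 R} {c : E7 R} (hv : hf v v ≠ 0) (hc : c * star c = 1) :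
    (qrM v c)ᴴ * J7 (E7 R) * qrM v c = J7 (E7 R) := by
  obtain ⟨i, hi⟩ : ∃ i : E7 R, i = ⟨(hf v v).re⁻¹, 0⟩ := ⟨_, rfl⟩
  have hi1 : i * hf v v = 1 := by rw [hi]; exact qr_inv_mul hv
  have hi2 : star i = i := by rw [hi]; exact qr_star_inv v
  obtain ⟨P, hP⟩ : ∃ P : M7 (E7 R), P = vecMulVec v (star v) := ⟨_, rfl⟩
  have hPs : Pᴴ = P := by rw [hP, conjTranspose_vecMulVec, star_star]
  have hPP : P * (J7 (E7 R) * P) = hf v v • P := by rw [hP, qr_vJv]
  obtain ⟨d, hd⟩ : ∃ d : E7 R, d = (c - 1) * i := ⟨_, rfl⟩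
  have hq : qrM v c = 1 + (d • P) * J7 (E7 R) := by
    unfold qrM
    rw [← hi, ← hP, hd, Matrix.smul_mul]
  have hds : star d = (star c - 1) * i := by
    rw [hd, star_mul, hi2, star_sub, star_one, mul_comm]
  have hN : (d • P)ᴴ + d • P + (d • P)ᴴ * (J7 (E7 R) * (d • P)) = 0 := by
    rw [conjTranspose_smul, hPs, Matrix.mul_smul, Matrix.mul_smul, Matrix.smul_mul, hPP,
      smul_smul, smul_smul, ← add_smul, ← add_smul]
    have h0 : star d + d + d * star d * hf v v = 0 := by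
      rw [hds, hd]
      linear_combination (i * (c - 1) * (star c - 1)) * hi1 + i * hc
    rw [h0, zero_smul]
  rw [hq, conjTranspose_add, conjTranspose_one, conjTranspose_mul, J7_star]
  obtain ⟨N, hN'⟩ : ∃ N : M7 (E7 R), N = d • P := ⟨_, rfl⟩
  rw [← hN'] at hN ⊢
  calc (1 + J7 (E7 R) * Nᴴ) * J7 (E7 R) * (1 + N * J7 (E7 R))
      = J7 (E7 R) + J7 (E7 R) * ((Nᴴ + N + Nᴴ * (J7 (E7 R) * N)) * J7 (E7 R)) := by
        noncomm_ring
    _ = J7 (E7 R) := by rw [hN, Matrix.zero_mul, Matrix.mul_zero, add_zero]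

/-- The quasi-reflection as an element of the unitary group. -/
noncomputable def qr (v : Fin 7 → E7 R) (c : E7 R) (hv : hf v v ≠ 0) (hc : c * star c = 1) : U7 R :=
  ⟨qrM v c, qrM_unitary hv hc⟩

theorem qrM_mulVec (v x : Fin 7 → E7 R) (c : E7 R) :
    qrM v c *ᵥ x = x + ((c - 1) * ⟨(hf v v).re⁻¹, 0⟩ * hf v x) • v := by
  have h1 : (vecMulVec v (star v) * J7 (E7 R)) *ᵥ x = hf v x • v := by
    rw [← mulVec_mulVec, vecMulVec_mulVec]
    funext j
    change v j * (star v ⬝ᵥ (J7 (E7 R) *ᵥ x)) = (star v ⬝ᵥ (J7 (E7 R) *ᵥ x)) * v j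
    exact mul_comm _ _
  unfold qrM
  rw [add_mulVec, one_mulVec, smul_mulVec, h1, smul_smul]

theorem qrM_self {v : Fin 7 → E7 R} {c : E7 R} (hv : hf v v ≠ 0) : qrM v c *ᵥ v = c • v := by
  rw [qrM_mulVec, mul_assoc, qr_inv_mul hv, mul_one, sub_smul, one_smul]
  abel

theorem qrM_orth {v x : Fin 7 → E7 R} {c : E7 R} (hx : hf v x = 0) : qrM v c *ᵥ x = x := by
  rw [qrM_mulVec, hx, mul_zero, zero_smul, add_zero]

private theorem qr_star_J (v : Fin 7 → E7 R) : star (J7 (E7 R) *ᵥ star v) = v ᵥ* J7 (E7 R) := by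
  rw [star_mulVec, star_star, J7_star]

private theorem qr_J_vec (v : Fin 7 → E7 R) : v ᵥ* J7 (E7 R) = J7 (E7 R) *ᵥ v := by
  conv_rhs => rw [← qr_J_transpose]
  rw [mulVec_transpose]

private theorem qr_hf_J (v : Fin 7 → E7 R) :
    hf (J7 (E7 R) *ᵥ star v) (J7 (E7 R) *ᵥ star v) = hf v v := by
  unfold hf
  rw [qr_star_J, mulVec_mulVec, J7_sq, one_mulVec, qr_J_vec, dotProduct_comm]

/-- The transpose of a quasi-reflection. -/
theorem qrM_transpose (v : Fin 7 → E7 R) (c : E7 R) :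
    (qrM v c)ᵀ = qrM (J7 (E7 R) *ᵥ star v) c := by
  unfold qrM
  rw [qr_hf_J, transpose_add, transpose_one, transpose_smul, transpose_mul, qr_J_transpose,
    transpose_vecMulVec, qr_star_J, mul_vecMulVec, vecMulVec_mul, vecMul_vecMul, J7_sq,
    vecMul_one]

theorem hf_J_star (v : Fin 7 → E7 R) :
    hf (J7 (E7 R) *ᵥ star v) (J7 (E7 R) *ᵥ star v) = hf v v :=
  qr_hf_J v

/-- The conjugate of a quasi-reflection. -/
theorem qrM_conj (k : U7 R) (v : Fin 7 → E7 R) (c : E7 R) :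
    k.mat * qrM v c * (k⁻¹).mat = qrM (k.mat *ᵥ v) c := by
  have h0 : k.mat * (k⁻¹).mat = 1 := by rw [← U7.mat_mul, mul_inv_cancel, U7.mat_one]
  have h1 : J7 (E7 R) * (k⁻¹).mat = k.matᴴ * J7 (E7 R) := by
    rw [U7.mat_inv, ← Matrix.mul_assoc, ← Matrix.mul_assoc, J7_sq, Matrix.one_mul]
  have h2 : k.mat * (vecMulVec v (star v) * (J7 (E7 R) * (k⁻¹).mat)) =
      vecMulVec (k.mat *ᵥ v) (star (k.mat *ᵥ v)) * J7 (E7 R) := by
    rw [h1, ← Matrix.mul_assoc, ← Matrix.mul_assoc, mul_vecMulVec, vecMulVec_mul, star_mulVec]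
  unfold qrM
  rw [hf_mulVec]
  simp only [mul_add, add_mul, Matrix.mul_one, h0, Matrix.mul_smul, Matrix.smul_mul,
    Matrix.mul_assoc, h2]

end Pool.Agent.MPabcfcd
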